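import Pool.Agent.Lib.MP_1a91b9_nuX.TG.Top
import Pool.Agent.Lib.MP_1a91b9_nt.VcPoint
import Pool.Agent.Lib.MP_1a91b9_nuX.DB.Defs

/-!
# The curve `y² = x³ + A₀ x + B₀` and the curve of `CD`

The curve of `CD` is `y² = x³ + k⁴ A₀ x + k⁶ B₀`. Transport of torsion points, of the classes of the
twists, of the numbers of points of the reductions and of the ramification condition.
-/

set_option autoImplicit false

namespace Pool.Agent.Lib.MP_1a91b9_nuX.TG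

variable [Pool.Agent.Lib.MP_1a91b9_nuT.CD]

open NumberField IsDedekindDomain Module WeierstrassCurve Pool.Agent.Lib.MP_1a91b9_nuT
open Pool.Agent.Lib.MP_1a91b9_nt
open Pool.Agent.Lib.MP_1a91b9_nuX.DB
open Pool.Agent.Lib.MP_1a91b9_nuX.LF (crv crv_map exists_scale tA tB dK)

/-- transport of the order of a point -/
theorem nsmul_transport {F : Type*} [Field F] [DecidableEq F] {W W' : WeierstrassCurve F}
    (e : W = W') (x y : F) (h : W.toAffine.Nonsingular x y) (h' : W'.toAffine.Nonsingular x y)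
    {n : ℕ} (hf : n • Affine.Point.some x y h = 0) :
    n • Affine.Point.some x y h' = 0 := by
  subst e
  exact hf

section
variable {A₀ B₀ k : ℤ} (hk : k ≠ 0) (hA : CD.A = k ^ 4 * A₀) (hB : CD.B = k ^ 6 * B₀)
include hk hA hB

theorem scale_field (F : Type*) [Field F] [CharZero F] :
    ∃ C : VariableChange F, C • (⟨0, 0, 0, ((A₀ : ℤ) : F), ((B₀ : ℤ) : F)⟩ : WeierstrassCurve F) =
      E F ∧ (C.u : F) = ((k : ℤ) : F)⁻¹ ∧ C.r = 0 ∧ C.s = 0 ∧ C.t = 0 := by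
  have hk' : ((k : ℤ) : F) ≠ 0 := Int.cast_ne_zero.2 hk
  have e4 : cA F = ((k : ℤ) : F) ^ 4 * ((A₀ : ℤ) : F) := by
    change ((CD.A : ℤ) : F) = _
    rw [hA]
    push_cast
    ring
  have e6 : cB F = ((k : ℤ) : F) ^ 6 * ((B₀ : ℤ) : F) := by
    change ((CD.B : ℤ) : F) = _
    rw [hB]
    push_cast
    ring
  refine ⟨⟨(Units.mk0 ((k : ℤ) : F) hk')⁻¹, 0, 0, 0⟩, ?_, by simp, rfl, rfl, rfl⟩
  rw [LF.E_eq_crv, e4, e6]
  ext
  · simp [crv, WeierstrassCurve.variableChange_a₁]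
  · simp [crv, WeierstrassCurve.variableChange_a₂]
  · simp [crv, WeierstrassCurve.variableChange_a₃]
  · simp [crv, WeierstrassCurve.variableChange_a₄]
  · simp [crv, WeierstrassCurve.variableChange_a₆]

/-- the curve becomes the curve of `CD` -/
theorem scale_curve {F : Type*} [Field F] [CharZero F] {W : WeierstrassCurve F}
    {C : VariableChange F} (hC : C • W = ⟨0, 0, 0, ((A₀ : ℤ) : F), ((B₀ : ℤ) : F)⟩) :
    ∃ C' : VariableChange F, C' • W = E F := by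
  obtain ⟨C1, h1, -⟩ := scale_field hk hA hB F
  exact ⟨C1 * C, by rw [mul_smul, hC, h1]⟩

/-- transport of a torsion point -/
theorem scale_tors {L : Type*} [Field L] [Algebra K L] [DecidableEq L] (x y : L)
    (hxy : (⟨0, 0, 0, ((A₀ : ℤ) : L), ((B₀ : ℤ) : L)⟩ :
      WeierstrassCurve L).toAffine.Nonsingular x y)
    (ht : IsOfFinAddOrder (Affine.Point.some x y hxy)) :
    ∃ (T : Pt L) (n : ℕ), n ≠ 0 ∧ n • T = 0 ∧ xc T = (k : L) ^ 2 * x ∧
      yc T = (k : L) ^ 3 * y := by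
  have hcz : CharZero L := charZero_of_injective_algebraMap (algebraMap K L).injective
  have hk' : ((k : ℤ) : L) ≠ 0 := Int.cast_ne_zero.2 hk
  obtain ⟨C, hC, hu, hr, hs, htt⟩ := scale_field hk hA hB L
  obtain ⟨e, he⟩ := exists_point_equiv
    (⟨0, 0, 0, ((A₀ : ℤ) : L), ((B₀ : ℤ) : L)⟩ : WeierstrassCurve L) C
  have heq : ((k : L) ^ 3 * y) ^ 2 = ((k : L) ^ 2 * x) ^ 3 + cA L * ((k : L) ^ 2 * x) + cB L := by
    have h4 := hxy.1
    rw [Affine.equation_iff] at h4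
    have h5 : y ^ 2 = x ^ 3 + ((A₀ : ℤ) : L) * x + ((B₀ : ℤ) : L) := by simpa using h4
    have e4 : cA L = ((k : ℤ) : L) ^ 4 * ((A₀ : ℤ) : L) := by
      change ((CD.A : ℤ) : L) = _
      rw [hA]
      push_cast
      ring
    have e6 : cB L = ((k : ℤ) : L) ^ 6 * ((B₀ : ℤ) : L) := by
      change ((CD.B : ℤ) : L) = _
      rw [hB]
      push_cast
      ring
    rw [e4, e6]
    linear_combination (k : L) ^ 6 * h5
  have hE : C • (⟨0, 0, 0, ((A₀ : ℤ) : L), ((B₀ : ℤ) : L)⟩ : WeierstrassCurve L) =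
      (E K).baseChange L := by
    rw [hC]
    exact (E_map (algebraMap K L)).symm
  have hns : (C • (⟨0, 0, 0, ((A₀ : ℤ) : L), ((B₀ : ℤ) : L)⟩ :
      WeierstrassCurve L)).toAffine.Nonsingular ((k : L) ^ 2 * x) ((k : L) ^ 3 * y) := by
    rw [hE]
    exact (nons_iff _ _).2 heq
  obtain ⟨h', h2⟩ := he _ _ hns
  obtain ⟨n, hn, hT⟩ := isOfFinAddOrder_iff_nsmul_eq_zero.1 ht
  have h3 : e (Affine.Point.some _ _ hns) = Affine.Point.some x y hxy := by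
    rw [h2, Affine.Point.some.injEq]
    rw [hr, hs, htt, hu]
    constructor
    · field_simp
      ring
    · field_simp
      ring
  have h4 : n • Affine.Point.some _ _ hns = 0 := by
    apply e.injective
    rw [map_nsmul, h3, hT, map_zero]
  exact ⟨mkPt _ _ heq, n, hn.ne',
    nsmul_transport hE _ _ hns ((nons_iff _ _).2 heq) h4, rfl, rfl⟩

omit hA hB in
/-- the field generated by the coordinates does not change -/
theorem scale_gen {L : Type*} [Field L] [Algebra K L] {x y x' y' : L}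
    (hx : x' = (k : L) ^ 2 * x) (hy : y' = (k : L) ^ 3 * y)
    (hgen : IntermediateField.adjoin K {x, y} = ⊤) :
    IntermediateField.adjoin K {x', y'} = (⊤ : IntermediateField K L) := by
  have hcz : CharZero L := charZero_of_injective_algebraMap (algebraMap K L).injective
  have hk' : ((k : ℤ) : L) ≠ 0 := Int.cast_ne_zero.2 hk
  rw [eq_top_iff, ← hgen, IntermediateField.adjoin_le_iff]
  have h1 : x' ∈ IntermediateField.adjoin K {x', y'} :=
    IntermediateField.subset_adjoin K _ (Or.inl rfl)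
  have h2 : y' ∈ IntermediateField.adjoin K {x', y'} :=
    IntermediateField.subset_adjoin K _ (Or.inr rfl)
  have h3 : (k : L) ∈ IntermediateField.adjoin K {x', y'} := intCast_mem _ k
  have ex : x = ((k : L) ^ 2)⁻¹ * x' := by
    rw [hx, inv_mul_cancel_left₀ (pow_ne_zero 2 hk')]
  have ey : y = ((k : L) ^ 3)⁻¹ * y' := by
    rw [hy, inv_mul_cancel_left₀ (pow_ne_zero 3 hk')]
  rintro z (rfl | rfl)
  · rw [SetLike.mem_coe, ex]
    exact mul_mem (inv_mem (pow_mem h3 2)) h1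
  · rw [SetLike.mem_coe, ey]
    exact mul_mem (inv_mem (pow_mem h3 3)) h2

/-- the numbers of points of the reductions are the same -/
theorem scale_card {F : Type} [Field F] [NumberField F] (v : HeightOneSpectrum (𝓞 F))
    (h6 : ((CD.bad : ℤ) : 𝓞 F) ∉ v.asIdeal) :
    Nat.card (⟨0, 0, 0, ((A₀ : ℤ) : 𝓞 F ⧸ v.asIdeal), ((B₀ : ℤ) : 𝓞 F ⧸ v.asIdeal)⟩ :
        WeierstrassCurve (𝓞 F ⧸ v.asIdeal)).toAffine.Point =
      Nat.card (⟨0, 0, 0, ((CD.A : ℤ) : 𝓞 F ⧸ v.asIdeal), ((CD.B : ℤ) : 𝓞 F ⧸ v.asIdeal)⟩ :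
        WeierstrassCurve (𝓞 F ⧸ v.asIdeal)).toAffine.Point := by
  have hm : v.asIdeal.IsMaximal := v.isMaximal
  letI : Field (𝓞 F ⧸ v.asIdeal) := Ideal.Quotient.field _
  have hkv : ((k : ℤ) : 𝓞 F ⧸ v.asIdeal) ≠ 0 := by
    intro h0
    have h1 : ((k : ℤ) : 𝓞 F) ∈ v.asIdeal := by
      rw [← Ideal.Quotient.eq_zero_iff_mem, map_intCast]
      exact h0
    apply h6
    have h2 : k ∣ CD.bad := by
      refine Dvd.dvd.trans ?_ CD.bad_dvd
      refine Dvd.dvd.mul_right (Dvd.dvd.mul_right (Dvd.dvd.mul_left ?_ _) _) _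
      rw [hA, hB]
      exact ⟨k ^ 11 * (4 * A₀ ^ 3 + 27 * B₀ ^ 2), by ring⟩
    exact v.asIdeal.mem_of_dvd (map_dvd (Int.castRingHom (𝓞 F)) h2) h1
  obtain ⟨C, hC⟩ := exists_scale ((A₀ : ℤ) : 𝓞 F ⧸ v.asIdeal) ((B₀ : ℤ) : 𝓞 F ⧸ v.asIdeal)
    ((k : ℤ) : 𝓞 F ⧸ v.asIdeal) hkv
  have e4 : ((CD.A : ℤ) : 𝓞 F ⧸ v.asIdeal) =
      ((k : ℤ) : 𝓞 F ⧸ v.asIdeal) ^ 4 * ((A₀ : ℤ) : 𝓞 F ⧸ v.asIdeal) := by
    rw [hA]
    push_cast
    ring
  have e6 : ((CD.B : ℤ) : 𝓞 F ⧸ v.asIdeal) =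
      ((k : ℤ) : 𝓞 F ⧸ v.asIdeal) ^ 6 * ((B₀ : ℤ) : 𝓞 F ⧸ v.asIdeal) := by
    rw [hB]
    push_cast
    ring
  rw [e4, e6]
  have h3 := card_point_variableChange (crv ((A₀ : ℤ) : 𝓞 F ⧸ v.asIdeal)
    ((B₀ : ℤ) : 𝓞 F ⧸ v.asIdeal)) C
  rw [hC] at h3
  exact h3.symm

/-- the reduction is good at the places which do not divide `6 (4 A₀³ + 27 B₀²)` -/
theorem good_of_disc (P : HeightOneSpectrum (𝓞 K))
    (h : ((6 * (4 * A₀ ^ 3 + 27 * B₀ ^ 2) : ℤ) : 𝓞 K) ∉ P.asIdeal) :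
    ∃ C : VariableChange K, GM.GoodW (P.valuation K) (C • E K) := by
  obtain ⟨C, hC, -⟩ := scale_field hk hA hB K
  refine ⟨C⁻¹, ?_⟩
  rw [← hC, inv_smul_smul]
  have hi : ∀ z : ℤ, P.valuation K ((z : ℤ) : K) ≤ 1 := fun z => by
    have h1 := P.valuation_le_one (K := K) ((z : ℤ) : 𝓞 K)
    exact (congrArg (fun t => P.valuation K t ≤ 1) (map_intCast (algebraMap (𝓞 K) K) z)).mp h1
  have hu : ∀ z : ℤ, z ∣ 6 * (4 * A₀ ^ 3 + 27 * B₀ ^ 2) → P.valuation K ((z : ℤ) : K) = 1 :=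
    fun z hz => by
    refine le_antisymm (hi z) (not_lt.1 fun hlt => h ?_)
    have h1 := (P.valuation_lt_one_iff_mem (K := K) ((z : ℤ) : 𝓞 K)).1
      ((congrArg (fun t => P.valuation K t < 1) (map_intCast (algebraMap (𝓞 K) K) z)).mpr hlt)
    exact P.asIdeal.mem_of_dvd (map_dvd (Int.castRingHom (𝓞 K)) hz) h1
  refine ⟨⟨?_, ?_, ?_, hi A₀, hi B₀⟩, ?_⟩
  · change P.valuation K 0 ≤ 1
    rw [map_zero]
    exact zero_le_one
  · change P.valuation K 0 ≤ 1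
    rw [map_zero]
    exact zero_le_one
  · change P.valuation K 0 ≤ 1
    rw [map_zero]
    exact zero_le_one
  · have e1 := LF.crv_Δ ((A₀ : ℤ) : K) ((B₀ : ℤ) : K)
    change P.valuation K (crv ((A₀ : ℤ) : K) ((B₀ : ℤ) : K)).Δ = 1
    rw [e1, Valuation.map_neg]
    have e2 : (16 * (4 * ((A₀ : ℤ) : K) ^ 3 + 27 * ((B₀ : ℤ) : K) ^ 2)) =
        ((2 : ℤ) : K) ^ 4 * ((4 * A₀ ^ 3 + 27 * B₀ ^ 2 : ℤ) : K) := by
      push_cast
      ring
    rw [e2, map_mul, map_pow, hu 2 (Dvd.dvd.mul_right (by norm_num) _),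
      hu _ (Dvd.intro_left _ rfl), one_pow, one_mul]

/-- the ramification condition -/
theorem scale_ram {ℓ : ℕ} {c : ℤ} {F₀ L : Type} [Field F₀] [NumberField F₀] [Algebra K F₀]
    [Field L] [NumberField L] [Algebra F₀ L]
    (h : ∀ (v : HeightOneSpectrum (𝓞 F₀)) (w : HeightOneSpectrum (𝓞 L)),
      v.asIdeal.map (algebraMap (𝓞 F₀) (𝓞 L)) ≤ w.asIdeal ^ 2 →
        (ℓ : 𝓞 F₀) ∉ v.asIdeal ∧ (((c : ℤ) : 𝓞 F₀) ∉ v.asIdeal →
          ¬ ℓ ∣ Nat.card (⟨0, 0, 0, ((A₀ : ℤ) : 𝓞 F₀ ⧸ v.asIdeal),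
            ((B₀ : ℤ) : 𝓞 F₀ ⧸ v.asIdeal)⟩ : WeierstrassCurve (𝓞 F₀ ⧸ v.asIdeal)).toAffine.Point)) :
    RamC ℓ CD.A CD.B ((c * CD.bad : ℤ) : 𝓞 K) F₀ L := by
  intro v w hw
  obtain ⟨h1, h2⟩ := h v w hw
  refine ⟨h1, fun h3 => ?_⟩
  have h5 : MP_1a91b9_nuG.up ((c * CD.bad : ℤ) : 𝓞 K) F₀ = ((c * CD.bad : ℤ) : 𝓞 F₀) :=
    map_intCast (algebraMap (𝓞 K) (𝓞 F₀)) _
  rw [h5] at h3
  have h6 : ((CD.bad : ℤ) : 𝓞 F₀) ∉ v.asIdeal := fun h7 => h3
    (v.asIdeal.mem_of_dvd (map_dvd (Int.castRingHom (𝓞 F₀)) (Dvd.intro_left c rfl)) h7)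
  have h7 : ((c : ℤ) : 𝓞 F₀) ∉ v.asIdeal := fun h7 => h3
    (v.asIdeal.mem_of_dvd (map_dvd (Int.castRingHom (𝓞 F₀)) (Dvd.intro _ rfl)) h7)
  rw [← scale_card hk hA hB v h6]
  exact h2 h7

omit hB in
/-- the condition on the degree does not change -/
theorem scale_ww : LF.ww = if A₀ = 0 then 6 else 2 := by
  unfold LF.ww
  have h : CD.A = 0 ↔ A₀ = 0 := by
    rw [hA, mul_eq_zero]
    constructor
    · rintro (h | h)
      · exact absurd h (pow_ne_zero 4 hk)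
      · exact h
    · exact fun h => Or.inr h
  simp only [h]

/-- the classes of the twists do not change -/
theorem scale_tw {N : Type*} [Field N] [CharZero N] {W : WeierstrassCurve N}
    (h : (∃ C : VariableChange N, C • W = ⟨0, 0, 0, ((A₀ : ℤ) : N), ((B₀ : ℤ) : N)⟩) ∨
      ∃ C : VariableChange N, C • W = ⟨0, 0, 0,
        (((if B₀ = 0 then -4 * A₀ else A₀ * dK ^ 2 : ℤ)) : N), ((B₀ * dK ^ 3 : ℤ) : N)⟩) :
    (∃ C : VariableChange N, C • W = crv (cA N) (cB N)) ∨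
      ∃ C : VariableChange N, C • W = crv ((tA : ℤ) : N) ((tB : ℤ) : N) := by
  rcases h with ⟨C, hC⟩ | ⟨C, hC⟩
  · left
    obtain ⟨C', hC'⟩ := scale_curve hk hA hB hC
    exact ⟨C', hC'⟩
  · right
    have hk' : ((k : ℤ) : N) ≠ 0 := Int.cast_ne_zero.2 hk
    obtain ⟨C1, h1⟩ := exists_scale (((if B₀ = 0 then -4 * A₀ else A₀ * dK ^ 2 : ℤ)) : N)
      ((B₀ * dK ^ 3 : ℤ) : N) _ hk'
    refine ⟨C1 * C, ?_⟩
    rw [mul_smul, hC]
    change C1 • crv (((if B₀ = 0 then -4 * A₀ else A₀ * dK ^ 2 : ℤ)) : N)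
      ((B₀ * dK ^ 3 : ℤ) : N) = _
    rw [h1]
    have hB0 : CD.B = 0 ↔ B₀ = 0 := by
      rw [hB, mul_eq_zero]
      constructor
      · rintro (h | h)
        · exact absurd h (pow_ne_zero 6 hk)
        · exact h
      · exact fun h => Or.inr h
    have e1 : tA = k ^ 4 * (if B₀ = 0 then -4 * A₀ else A₀ * dK ^ 2) := by
      unfold tA
      simp only [hB0]
      split_ifs
      · rw [hA]
        ring
      · rw [hA]
        ring
    have e2 : tB = k ^ 6 * (B₀ * dK ^ 3) := by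
      unfold tB
      rw [hB]
      ring
    rw [e1, e2]
    congr 1
    · push_cast
      ring
    · push_cast
      ring

end

end Pool.Agent.Lib.MP_1a91b9_nuX.TG
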