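import Pool.Agent.Lib.MP_1a91b9_nuX.TG.SubU
import Pool.Agent.Lib.MP_1a91b9_nuX.TG.Tower
import Pool.Agent.Lib.MP_1a91b9_nuX.TG.Fin
import Pool.Agent.Lib.MP_1a91b9_nuX.LF.Main
import Pool.Agent.Lib.MP_1a91b9_nuT.PT.Dat

/-!
# The fields inside `L`

Port of MP_1a91b9_nuT/TG/Dat.lean.
-/

set_option autoImplicit false

namespace Pool.Agent.Lib.MP_1a91b9_nuX.TG

variable [Pool.Agent.Lib.MP_1a91b9_nuT.CD]

open NumberField IsDedekindDomain WeierstrassCurve Module IntermediateField Polynomial
  Pool.Agent.Lib.MP_1a91b9_nuT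
open Pool.Agent.Lib.MP_1a91b9_nuX.DB Pool.Agent.Lib.MP_1a91b9_nuX.DX
open Pool.Agent.Lib.MP_1a91b9_nuT.PT (exists_hom map_om)

variable [HC]

section
variable {ℓ : ℕ} (hℓ : ℓ.Prime) (F₀ L M : Type) [Field F₀] [NumberField F₀]
  [Algebra K F₀] [Field L] [NumberField L] [Field M] [NumberField M] [Algebra K L]
  [Algebra K M] [Algebra F₀ L] [Algebra L M] [Algebra F₀ M] [IsScalarTower K F₀ L]
  [IsScalarTower K F₀ M] [IsScalarTower F₀ L M] [IsGalois F₀ M] (n : ℕ)
  (hM : finrank F₀ M = ℓ ^ n) (hL : RamG ℓ F₀ L)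
include hℓ hM hL

/-- The fields between `F₀` and `L` are in the tower. -/
theorem tower_sub (F : Type) [Field F] [NumberField F] [Algebra K F] [Algebra F₀ F] [Algebra F L]
    [IsScalarTower K F₀ F] [IsScalarTower F₀ F L] : TowerG (Cpy F₀) ℓ F := by
  let aFM : Algebra F M := ((algebraMap L M).comp (algebraMap F L)).toAlgebra
  have t1 : IsScalarTower F₀ F M := IsScalarTower.of_algebraMap_eq fun x => by
    change algebraMap F₀ M x = algebraMap L M (algebraMap F L (algebraMap F₀ F x))
    rw [← IsScalarTower.algebraMap_apply F₀ F L, ← IsScalarTower.algebraMap_apply F₀ L M]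
  exact towerG_of_galois (M := M) hℓ F n hM fun v hv => hL v (MP_1a91b9_nuT3.S8.ram_up v hv)

end

omit [HC] in
/-- The compositum `N F₀` inside `L`. -/
theorem exists_NF (F₀ L : Type) [Field F₀] [NumberField F₀] [Algebra K F₀] [Field L]
    [NumberField L] [Algebra K L] [Algebra F₀ L] [IsScalarTower K F₀ L] (N : Type) [Field N]
    [NumberField N] [Algebra K N] [Algebra N L] [IsScalarTower K N L] :
    ∃ (F : Type) (_ : Field F) (_ : NumberField F) (_ : Algebra K F) (_ : Algebra F₀ F)
      (_ : Algebra F L) (_ : Algebra N F), IsScalarTower F₀ F L ∧ IsScalarTower K F L ∧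
      IsScalarTower K F₀ F ∧ IsScalarTower K N F ∧ IsScalarTower N F L ∧
      IntermediateField.adjoin N (Set.range (algebraMap F₀ F)) = ⊤ := by
  let F : IntermediateField N L := IntermediateField.adjoin N (Set.range (algebraMap F₀ L))
  have hmem : ∀ x : F₀, algebraMap F₀ L x ∈ F := fun x => subset_adjoin N _ ⟨x, rfl⟩
  let aF₀F : Algebra F₀ F :=
    ((algebraMap F₀ L).codRestrict F.toSubalgebra.toSubring hmem).toAlgebra
  have hc : ∀ x : F₀, ((algebraMap F₀ F x : F) : L) = algebraMap F₀ L x := fun x => rfl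
  have t1 : IsScalarTower F₀ F L := IsScalarTower.of_algebraMap_eq fun x => rfl
  have t2 : IsScalarTower K F L := IsScalarTower.of_algebraMap_eq fun x => rfl
  have t3 : IsScalarTower K F₀ F := IsScalarTower.of_algebraMap_eq fun x => Subtype.ext (by
    rw [hc, ← IsScalarTower.algebraMap_apply K F₀ L]
    rfl)
  have t4 : IsScalarTower K N F := IsScalarTower.of_algebraMap_eq fun x => Subtype.ext (by
    change algebraMap K L x = algebraMap N L (algebraMap K N x)
    exact IsScalarTower.algebraMap_apply K N L x)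
  refine ⟨F, inferInstance, inferInstance, inferInstance, aF₀F, inferInstance, inferInstance,
    t1, t2, t3, t4, inferInstance, ?_⟩
  have h1 : F.val '' (Set.range (algebraMap F₀ F)) = Set.range (algebraMap F₀ L) := by
    ext y
    constructor
    · rintro ⟨_, ⟨x, rfl⟩, rfl⟩
      exact ⟨x, rfl⟩
    · rintro ⟨x, rfl⟩
      exact ⟨_, ⟨x, rfl⟩, rfl⟩
  have h2 : (IntermediateField.adjoin N (Set.range (algebraMap F₀ F))).map F.val = F := by
    rw [adjoin_map, h1]
  rw [eq_top_iff]
  intro y _
  have h4 : (y : L) ∈ (IntermediateField.adjoin N (Set.range (algebraMap F₀ F))).map F.val := by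
    rw [h2]
    exact y.2
  obtain ⟨z, hz, hzy⟩ := h4
  have h5 : z = y := Subtype.ext hzy
  rw [← h5]
  exact hz

omit [HC] in
/-- A subfield `N` of a field `L` which contains `K`: it contains `K`, or `F = N(om)` is of degree
two over `N`. -/
theorem exists_sub (L : Type) [Field L] [NumberField L] [Algebra K L] (N : Type) [Field N]
    [NumberField N] [Algebra N L] :
    (∃ _ : Algebra K N, IsScalarTower K N L) ∨
    ∃ (F : Type) (_ : Field F) (_ : NumberField F) (_ : Algebra N F) (_ : Algebra K F)
      (_ : Algebra F L), IsScalarTower K F L ∧ IsScalarTower N F L ∧ finrank N F = 2 ∧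
      ∀ x : N, algebraMap N F x ≠ algebraMap K F om := by
  by_cases hN : ∃ x : N, algebraMap N L x = algebraMap K L om
  · obtain ⟨x, hx⟩ := hN
    have hx2 : x ^ 2 = (CD.tr : N) * x - (CD.nm : N) := by
      apply (algebraMap N L).injective
      rw [map_sub, map_mul, map_pow, map_intCast, map_intCast, hx]
      exact map_om
    obtain ⟨f, hf⟩ := exists_hom hx2
    let aKN : Algebra K N := f.toAlgebra
    exact Or.inl ⟨aKN, IsScalarTower.of_algebraMap_eq' (by
      apply S4.embedding_ext
      change algebraMap K L om = algebraMap N L (f om)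
      rw [hf, hx])⟩
  · let F : IntermediateField N L := N⟮algebraMap K L om⟯
    have hwF : algebraMap K L om ∈ F := mem_adjoin_simple_self N _
    have hw2 : (⟨algebraMap K L om, hwF⟩ : F) ^ 2 =
        (CD.tr : F) * ⟨algebraMap K L om, hwF⟩ - (CD.nm : F) := by
      apply (algebraMap F L).injective
      rw [map_sub, map_mul, map_pow, map_intCast, map_intCast]
      exact map_om
    obtain ⟨f, hf⟩ := exists_hom hw2
    let aKF : Algebra K F := f.toAlgebra
    have hst : IsScalarTower K F L := IsScalarTower.of_algebraMap_eq' (by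
      apply S4.embedding_ext
      change algebraMap K L om = ((f om : F) : L)
      rw [hf])
    have hint : IsIntegral N (algebraMap K L om) := Algebra.IsIntegral.isIntegral _
    refine Or.inr ⟨F, inferInstance, inferInstance, inferInstance, aKF, inferInstance, hst,
      inferInstance, ?_, ?_⟩
    · have h1 : finrank N F = (minpoly N (algebraMap K L om)).natDegree :=
        adjoin.finrank hint
      rw [h1]
      have hdvd : minpoly N (algebraMap K L om) ∣
          (X ^ 2 - C (CD.tr : N) * X + C (CD.nm : N) : N[X]) := by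
        apply minpoly.dvd
        rw [map_add, map_sub, map_mul, map_pow, aeval_X, aeval_C, aeval_C, map_intCast,
          map_intCast]
        linear_combination map_om (F := L)
      have hdeg : (X ^ 2 - C (CD.tr : N) * X + C (CD.nm : N) : N[X]).natDegree = 2 := by
        compute_degree!
      have hne : (X ^ 2 - C (CD.tr : N) * X + C (CD.nm : N) : N[X]) ≠ 0 := by
        intro h0
        rw [h0, natDegree_zero] at hdeg
        omega
      have hle := natDegree_le_of_dvd hdvd hne
      rw [hdeg] at hle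
      have hpos := minpoly.natDegree_pos hint
      have hne1 : (minpoly N (algebraMap K L om)).natDegree ≠ 1 := by
        intro h2
        exact hN (minpoly.natDegree_eq_one_iff.1 h2)
      omega
    · intro x hx
      apply hN
      refine ⟨x, ?_⟩
      have h1 := congrArg (algebraMap F L) hx
      rw [← IsScalarTower.algebraMap_apply, ← IsScalarTower.algebraMap_apply] at h1
      exact h1

section
variable {ℓ : ℕ} (hℓ : ℓ.Prime) (hD : ¬ (ℓ : ℤ) ∣ CD.bad) (F₀ L M : Type) [Field F₀]
  [NumberField F₀]
  [Algebra K F₀] (hB : ∀ (F : Type) [Field F] [NumberField F] [Algebra K F],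
    Cpy F₀ F → BaseG ℓ F) [Field L] [NumberField L] [Field M] [NumberField M] [Algebra K L]
  [Algebra K M] [Algebra F₀ L] [Algebra L M] [Algebra F₀ M] [IsScalarTower K F₀ L]
  [IsScalarTower K F₀ M] [IsScalarTower F₀ L M] [IsGalois F₀ M] (n : ℕ)
  (hM : finrank F₀ M = ℓ ^ n) (hL : RamG ℓ F₀ L)
include hℓ hD hB hM hL

/-- The conclusion over a subfield `N` of `L` which contains `K`. -/
theorem good_of_K {μ : 𝓞 K} (L' : Type) [Field L'] [NumberField L'] [Algebra K L']
    [Algebra F₀ L'] [IsScalarTower K F₀ L'] [IsGalois K L'] [DecidableEq L'] {T : Pt L'}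
    (hT : AbT μ K T) (N : Type) [Field N] [NumberField N] [Algebra K N] [Algebra N L]
    [IsScalarTower K N L] :
    LF.Nice N ∧ AN.LGood N ∧ Finite (E N).toAffine.Point := by
  obtain ⟨F, _, _, _, _, _, _, t1, t2, t3, t4, t5, hgen⟩ := exists_NF F₀ L N
  have hT' := tower_sub hℓ F₀ L M n hM hL F
  have hg := lgood_tower hℓ hD (fun F _ _ _ h => hB F h) hT'
  have hf := finite_tower hD (fun F _ _ _ h => hB F h) F hℓ hT'
  have hnc := nice_tower hℓ hD (fun F _ _ _ h => hB F h) hT'
  refine ⟨hnc.down, lgood_sub N F F₀ L' hT hgen hg, ?_⟩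
  exact finite_down (E N) (E F) 1
    (by rw [one_smul]; exact E_map (algebraMap N F)) hf

/-- What is needed about the subfields of `L`. -/
theorem dat_G {μ : 𝓞 K} (L' : Type) [Field L'] [NumberField L'] [Algebra K L']
    [Algebra F₀ L'] [IsScalarTower K F₀ L'] [IsGalois K L'] [DecidableEq L'] {T : Pt L'}
    (hT : AbT μ K T) (N : Type) [Field N] [NumberField N] [Algebra N L] :
    LF.Dat N := by
  rcases exists_sub L N with ⟨aKN, hst⟩ | ⟨F, _, _, _, _, _, t1, t2, h2, hn⟩
  · exact Or.inl ⟨aKN, good_of_K hℓ hD F₀ L M hB n hM hL L' hT N⟩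
  · exact Or.inr ⟨F, inferInstance, inferInstance, inferInstance, inferInstance,
      h2, hn, good_of_K hℓ hD F₀ L M hB n hM hL L' hT F⟩

end

end Pool.Agent.Lib.MP_1a91b9_nuX.TG
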