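import Pool.Agent.Lib.MP_1a91b9_nuX.TG.Defs
import Pool.Agent.Lib.MP_1a91b9_nuX.LF.Nice
import Pool.Agent.Lib.MP_1a91b9_nuT.TG.Analytic
import Pool.Agent.Lib.MP_1a91b9_nuT.CF.Main
import Pool.Agent.Lib.MP_1a91b9_nuG.OfRecip
import Pool.Agent.Lib.MP_1a91b9_nuT.S5.Places
import Pool.Agent.Lib.MP_1a91b9_nuT3.S8.Unr

/-!
# Towers over a general base field for `y² = x³ + D`: the analytic side
-/

set_option autoImplicit false

namespace Pool.Agent.Lib.MP_1a91b9_nuX.TG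

variable [Pool.Agent.Lib.MP_1a91b9_nuT.CD]

open NumberField IsDedekindDomain WeierstrassCurve Module Pool.Agent.Lib.MP_1a91b9_nuT
open Pool.Agent.Lib.MP_1a91b9_nuX.DB Pool.Agent.Lib.MP_1a91b9_nuX.DX
  Pool.Agent.Lib.MP_1a91b9_nuX.DS
open Pool.Agent.Lib.MP_1a91b9_nt
open Pool.Agent.Lib.MP_1a91b9_nuG
open Pool.Agent.Lib.MP_1a91b9_nuT.S5 (below mem_below exists_above below_below)

export Pool.Agent.Lib.MP_1a91b9_nuT.TG (not_ram_of_unr)

universe u

theorem coprime_six {ℓ : ℕ} (hℓ : ℓ.Prime) (h5 : 5 ≤ ℓ) : ℓ.Coprime 6 := by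
  rw [Nat.Prime.coprime_iff_not_dvd hℓ]
  intro h
  have h1 := Nat.le_of_dvd (by norm_num) h
  have h2 : ℓ = 5 ∨ ℓ = 6 := by omega
  rcases h2 with rfl | rfl
  · revert h
    decide
  · revert hℓ
    decide

theorem ww_dvd_six : LF.ww ∣ 6 := by
  unfold LF.ww
  split_ifs <;> norm_num

theorem coprime_ww {ℓ : ℕ} (hℓ : ℓ.Prime) (h5 : 5 ≤ ℓ) : ℓ.Coprime LF.ww :=
  (coprime_six hℓ h5).coprime_dvd_right ww_dvd_six

/-- going down -/
theorem e2_down {N F : Type*} [Field N] [NumberField N] [Algebra K N] [Field F] [NumberField F]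
    [Algebra K F] [Algebra N F] [IsScalarTower K N F] {ℓ : ℕ} (h : ¬ ℓ ∣ 2 ^ finrank K F - 1) :
    ¬ ℓ ∣ 2 ^ finrank K N - 1 := by
  intro h1
  apply h
  rw [← Module.finrank_mul_finrank K N F, pow_mul]
  refine h1.trans ?_
  have h2 := Nat.sub_dvd_pow_sub_pow (2 ^ finrank K N) 1 (finrank N F)
  rwa [one_pow] at h2

/-- going up in an extension of degree `ℓ` -/
theorem e2_up {ℓ : ℕ} (hℓ : ℓ.Prime) {d : ℕ} (h : ¬ ℓ ∣ 2 ^ d - 1) : ¬ ℓ ∣ 2 ^ (d * ℓ) - 1 := by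
  have hp : Fact ℓ.Prime := ⟨hℓ⟩
  intro h1
  apply h
  rw [← (ZMod.natCast_eq_zero_iff _ _), Nat.cast_sub Nat.one_le_two_pow] at h1 ⊢
  rw [pow_mul] at h1
  push_cast at h1 ⊢
  rwa [ZMod.pow_card] at h1

/-- the values of the partial series, in terms of the condition on the degree -/
theorem valueProp_e2 [HC] {ℓ : ℕ} (hℓ : ℓ.Prime) (h5 : 5 ≤ ℓ) (F : Type u) [Field F]
    [NumberField F] [Algebra K F] (h : ¬ ℓ ∣ 2 ^ finrank K F - 1) (hU : Ell.UQ ℓ F) :
    ValueProp HC.f ℓ Om F := by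
  refine AN.valueProp_eps hℓ F 2 ?_ ?_ hU
  · have h2 : Nat.Coprime 2 ℓ := by
      rw [Nat.coprime_comm, Nat.Prime.coprime_iff_not_dvd hℓ]
      intro h3
      have := Nat.le_of_dvd (by norm_num) h3
      omega
    exact_mod_cast Nat.Coprime.cast (R := 𝓞 K) h2
  · have h3 : Nat.Coprime (2 ^ finrank K F - 1) ℓ := by
      rw [Nat.coprime_comm, Nat.Prime.coprime_iff_not_dvd hℓ]
      exact h
    have h4 := Nat.Coprime.cast (R := 𝓞 K) h3
    rw [Nat.cast_sub Nat.one_le_two_pow] at h4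
    exact_mod_cast h4

section
variable [HC]
  {P : ∀ (F : Type u) [Field F] [NumberField F] [Algebra K F], Prop}
  {ℓ : ℕ} (hℓ : ℓ.Prime) (hD : ¬ (ℓ : ℤ) ∣ CD.bad)
  (hP : ∀ (F : Type u) [Field F] [NumberField F] [Algebra K F], P F → BaseG ℓ F)
  {F : Type u} [Field F] [NumberField F] [Algebra K F]

include hℓ hD hP

omit hD in
theorem e2_tower (h : TowerG P ℓ F) : ¬ ℓ ∣ 2 ^ finrank K F - 1 := by
  induction h with
  | base F hb => exact (hP F hb).e2
  | step F F' hG hr hu ha h ih =>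
    rw [← Module.finrank_mul_finrank K F F', hr]
    exact e2_up hℓ ih

theorem nice_tower (h : TowerG P ℓ F) : LF.Nice F := by
  have h6 := coprime_six hℓ (five_le hℓ hD)
  induction h with
  | base F hb => exact (hP F hb).nice
  | step F F' hG hr hu ha h ih => exact LF.Nice.up6 (by rw [hr]; exact h6) ih

omit hD in
theorem unr_tower (h : TowerG P ℓ F) :
    ∀ q : HeightOneSpectrum (𝓞 K), (ℓ : 𝓞 K) ∈ q.asIdeal → ¬ MP_1a91b9_nuT3.Ram F q := by
  induction h with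
  | base F hb => exact fun q hq => not_ram_of_unr (hP F hb).unr hℓ.ne_zero q hq
  | step F F' hG hr hu ha h ih =>
    intro q hq
    refine MP_1a91b9_nuT3.S8.not_ram_tower (F := F) q (ih q hq) fun v hv => hu v ?_
    subst hv
    rw [mem_below, map_natCast] at hq
    exact hq

omit hD in
theorem uq_tower (h : TowerG P ℓ F) : Ell.UQ ℓ F :=
  MP_1a91b9_nuT3.S8.uq_of_unram ℓ hℓ F fun v hv => unr_tower hℓ hP h v hv

theorem valueProp_tower (h : TowerG P ℓ F) : ValueProp HC.f ℓ Om F := by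
  have h5 := five_le hℓ hD
  exact valueProp_e2 hℓ h5 F (e2_tower hℓ hP h) (uq_tower hℓ hP h)

theorem unitProp_tower (h : TowerG P ℓ F) : AN.UnitProp ℓ Om F := by
  have hp : Fact ℓ.Prime := ⟨hℓ⟩
  have h5 := five_le hℓ hD
  induction h with
  | base F h => exact (hP F h).unit
  | step F F' hG hr hu ha h ih =>
    obtain ⟨x, -, hx1, hx2⟩ := CF.reciprocity F F' ℓ (by omega) hr fun v hv h3v =>
      hu v h3v ((ram_eq v).mpr hv)
    have hx := cfData_of hℓ hr x hx1 hx2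
    exact AN.step_main hr x hx (f_coprime hℓ hD) (fun v hv h1 => hu v h1 hv)
      (fun v hv _ => ha v hv)
      (valueProp_tower hℓ hD hP h) (valueProp_tower hℓ hD hP (TowerG.step F F' hG hr hu ha h)) ih

/-- the series of `F` continues and does not vanish at `1` -/
theorem lgood_tower (h : TowerG P ℓ F) : AN.LGood F := by
  obtain ⟨L, hL, hL1, hLW⟩ := unitProp_tower hℓ hD hP h
  obtain ⟨W, hW⟩ := Ell.d3_exists hℓ
  exact ⟨L, hL, hL1, S4.UnitProp.ne_zero (hLW W hW)⟩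

end

end Pool.Agent.Lib.MP_1a91b9_nuX.TG
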