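import Pool.Agent.Lib.MP_1a91b9_nuX.TG.Defs
import Pool.Agent.Lib.MP_1a91b9_nuT.PT.Tow
import Pool.Agent.Lib.MP_1a91b9_nuT.TG.Inter
import Pool.Agent.Lib.MP_1a91b9_nuT.S5.Places
import Pool.Agent.Lib.MP_1a91b9_nuT3.S8.Gal
import Pool.Agent.Lib.MP_1a91b9_nuT3.EF.Tower

/-!
# Theorem G, Part 9: subfields of Galois extensions of the base field of degree a power of `ℓ`
-/

set_option autoImplicit false

namespace Pool.Agent.Lib.MP_1a91b9_nuX.TG

variable [Pool.Agent.Lib.MP_1a91b9_nuT.CD]

open NumberField IsDedekindDomain Module Pool.Agent.Lib.MP_1a91b9_nuT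
open Pool.Agent.Lib.MP_1a91b9_nuT.S5 (below mem_below exists_above below_below)
open Pool.Agent.Lib.MP_1a91b9_nuG (Ram)
open Pool.Agent.Lib.MP_1a91b9_nuT.PT (cop_pow)
open Pool.Agent.Lib.MP_1a91b9_nuX.DS

universe u

variable [HC]

export Pool.Agent.Lib.MP_1a91b9_nuT.TG (Cpy)

/-- The ramification condition over the base field. -/
def RamG (ℓ : ℕ) (F₀ F : Type*) [Field F₀] [NumberField F₀] [Algebra K F₀] [Field F]
    [NumberField F] [Algebra F₀ F] : Prop :=
  ∀ v : HeightOneSpectrum (𝓞 F₀), Ram F v → (ℓ : 𝓞 F₀) ∉ v.asIdeal ∧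
    IsCoprime (psi F₀ v.asIdeal - 1) (ℓ : 𝓞 K)

/-- The coprimality of `ψ - 1` goes up. -/
def CPG (ℓ : ℕ) (F₀ F : Type*) [Field F₀] [NumberField F₀] [Algebra K F₀] [Field F]
    [NumberField F] [Algebra K F] [Algebra F₀ F] : Prop :=
  ∀ w : HeightOneSpectrum (𝓞 F), IsCoprime (psi F₀ (below F₀ w).asIdeal - 1) (ℓ : 𝓞 K) →
    IsCoprime (psi F w.asIdeal - 1) (ℓ : 𝓞 K)

/-- `ψ` at the places of an extension. -/
theorem psi_up {F F' : Type*} [Field F] [NumberField F] [Field F']
    [NumberField F'] [Algebra K F] [Algebra K F'] [Algebra F F'] [IsScalarTower K F F']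
    (w : HeightOneSpectrum (𝓞 F')) :
    psi F' w.asIdeal = psi F (below F w).asIdeal ^ w.asIdeal.inertiaDeg (𝓞 F) := by
  have hwm : w.asIdeal.IsMaximal := w.isMaximal
  have hvm : (below F w).asIdeal.IsMaximal := (below F w).isMaximal
  have hlo : w.asIdeal.LiesOver (below F w).asIdeal := ⟨rfl⟩
  have h1 : Ideal.relNorm (𝓞 F) w.asIdeal = (below F w).asIdeal ^ w.asIdeal.inertiaDeg (𝓞 F) :=
    Ideal.relNorm_eq_pow_of_isMaximal w.asIdeal (below F w).asIdeal
  have hst : IsScalarTower (𝓞 K) (𝓞 F) (𝓞 F') := IsScalarTower.of_algebraMap_eq fun x =>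
    (MP_1a91b9_nuT3.S8.algebraMap_tower (F := F) (F' := F') x).symm
  have h2 : Ideal.relNorm (𝓞 K) w.asIdeal =
      Ideal.relNorm (𝓞 K) (Ideal.relNorm (𝓞 F) w.asIdeal) :=
    (Ideal.relNorm_relNorm (𝓞 K) (𝓞 F) w.asIdeal).symm
  rw [psi, h2, h1, map_pow, ps_pow]
  rfl

theorem cop_up {ℓ : ℕ} (hℓ : ℓ.Prime) {F F' : Type*} [Field F] [NumberField F] [Field F']
    [NumberField F'] [Algebra K F] [Algebra K F'] [Algebra F F'] [IsScalarTower K F F']
    [IsGalois F F'] (hd : finrank F F' ∣ ℓ) (w : HeightOneSpectrum (𝓞 F'))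
    (h : IsCoprime (psi F (below F w).asIdeal - 1) (ℓ : 𝓞 K)) :
    IsCoprime (psi F' w.asIdeal - 1) (ℓ : 𝓞 K) := by
  rw [psi_up (F := F) w]
  exact cop_pow hℓ h (((MP_1a91b9_nuT3.EF.ef_dvd (below F w) w rfl).1).trans hd)

/-- `TowerG` is invariant under isomorphisms of `K`-algebras. -/
theorem towerG_congr {P : ∀ (F : Type u) [Field F] [NumberField F] [Algebra K F], Prop}
    (hP : ∀ (F F₂ : Type u) [Field F] [NumberField F] [Algebra K F] [Field F₂] [NumberField F₂]
      [Algebra K F₂], Nonempty (F ≃ₐ[K] F₂) → P F → P F₂) {ℓ : ℕ} {F : Type u} [Field F]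
    [NumberField F] [Algebra K F] (h : TowerG P ℓ F) : ∀ (F₂ : Type u) [Field F₂]
      [NumberField F₂] [Algebra K F₂] (_ : F ≃ₐ[K] F₂), TowerG P ℓ F₂ := by
  intro F₂ _ _ _ e
  cases h with
  | base F hb => exact TowerG.base F₂ (hP F F₂ ⟨e⟩ hb)
  | step N F hG hr hu ha h =>
    let alg : Algebra N F₂ := (e.toRingEquiv.toRingHom.comp (algebraMap N F)).toAlgebra
    have hmap : ∀ y : N, algebraMap N F₂ y = e (algebraMap N F y) := fun y => rfl
    have hst : IsScalarTower K N F₂ := IsScalarTower.of_algebraMap_eq fun x => by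
      rw [hmap, ← IsScalarTower.algebraMap_apply K N F, e.commutes]
    let e' : F ≃ₐ[N] F₂ := AlgEquiv.ofRingEquiv (f := e.toRingEquiv) fun y => rfl
    have hG2 : IsGalois N F₂ := IsGalois.of_algEquiv e'
    have hr2 : finrank N F₂ = ℓ := by rw [← e'.toLinearEquiv.finrank_eq, hr]
    let alg2 : Algebra F₂ F := e'.symm.toRingEquiv.toRingHom.toAlgebra
    have hst2 : IsScalarTower N F₂ F := IsScalarTower.of_algebraMap_eq fun x =>
      (e'.symm.commutes x).symm
    have hram : ∀ v : HeightOneSpectrum (𝓞 N), Ram F₂ v → Ram F v := fun v hv =>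
      MP_1a91b9_nuT3.S8.ram_up v hv
    exact TowerG.step N F₂ hG2 hr2 (fun v h3 hv => hu v h3 (hram v hv))
      (fun v hv => ha v (hram v hv)) h

section
variable {F₀ M : Type u} [Field F₀] [NumberField F₀] [Algebra K F₀] [Field M] [NumberField M]
  [Algebra K M] [Algebra F₀ M] [IsScalarTower K F₀ M] [IsGalois F₀ M]

theorem tower_inter {ℓ : ℕ} (hℓ : ℓ.Prime) (n : ℕ) (hM : finrank F₀ M = ℓ ^ n) (k : ℕ) :
    ∀ E' : IntermediateField F₀ M, finrank F₀ E' = k → RamG ℓ F₀ E' →
      TowerG (Cpy F₀) ℓ E' ∧ CPG ℓ F₀ E' := by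
  induction k using Nat.strong_induction_on with
  | _ k ih =>
    intro E' hk hr
    by_cases hE : finrank F₀ E' = 1
    · have hbot : E' = ⊥ := IntermediateField.finrank_eq_one_iff.1 hE
      have hb : Function.Bijective (algebraMap F₀ E') := by
        refine ⟨(algebraMap F₀ E').injective, fun y => ?_⟩
        have hy : (y : M) ∈ (⊥ : IntermediateField F₀ M) := hbot ▸ y.2
        obtain ⟨r, hr⟩ := IntermediateField.mem_bot.1 hy
        exact ⟨r, Subtype.ext hr⟩
      let e : F₀ ≃ₐ[F₀] E' := AlgEquiv.ofBijective (Algebra.ofId F₀ E') hb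
      have hG : IsGalois F₀ E' := IsGalois.of_algEquiv e
      exact ⟨TowerG.base _ ⟨e.restrictScalars K⟩, fun w hw =>
        cop_up hℓ (by rw [hE]; exact one_dvd ℓ) w hw⟩
    · have hfd : FiniteDimensional F₀ M := Module.Finite.of_restrictScalars_finite ℚ F₀ M
      have hcardG : Nat.card Gal(M/F₀) = ℓ ^ n := by
        rw [IsGalois.card_aut_eq_finrank, hM]
      have hmul : finrank F₀ E' * finrank E' M = ℓ ^ n := by
        rw [Module.finrank_mul_finrank, hM]
      have hcardH : Nat.card E'.fixingSubgroup = finrank E' M :=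
        IsGalois.card_fixingSubgroup_eq_finrank E'
      obtain ⟨m, hmn, hm⟩ : ∃ m ≤ n, finrank E' M = ℓ ^ m :=
        (Nat.dvd_prime_pow hℓ).1 ⟨_, by rw [← hmul]; ring⟩
      have hmlt : m < n := by
        rcases hmn.lt_or_eq with h | h
        · exact h
        · exfalso
          apply hE
          rw [hm, h] at hmul
          exact Nat.eq_of_mul_eq_mul_right (pow_pos hℓ.pos n) (by rw [hmul, one_mul])
      have hfact : Fact (Nat.Prime ℓ) := ⟨hℓ⟩
      obtain ⟨H, hHcard, hHle⟩ := Sylow.exists_subgroup_card_pow_succ (p := ℓ) (n := m)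
        (by rw [hcardG]; exact pow_dvd_pow ℓ hmlt) (H := E'.fixingSubgroup) (by rw [hcardH, hm])
      set E'' : IntermediateField F₀ M := IntermediateField.fixedField H with hE''
      have hle : E'' ≤ E' := by
        have h1 := IntermediateField.fixedField_antitone (F := F₀) (E := M) hHle
        rwa [IsGalois.fixedField_fixingSubgroup] at h1
      have hdeg : finrank E'' M = ℓ ^ (m + 1) := by
        rw [← hHcard, hE'']
        exact IntermediateField.finrank_fixedField_eq_card H
      have hmul2 : finrank F₀ E'' * finrank E'' M = ℓ ^ n := by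
        rw [Module.finrank_mul_finrank, hM]
      have hdbl : finrank F₀ E' = ℓ * finrank F₀ E'' := by
        have hp : 0 < ℓ ^ m := pow_pos hℓ.pos m
        rw [hdeg, ← hmul, hm, pow_succ] at hmul2
        have h3 : ℓ ^ m * (ℓ * finrank F₀ E'') = ℓ ^ m * finrank F₀ E' := by
          rw [mul_comm (ℓ ^ m) (finrank F₀ E'), ← hmul2]
          ring
        exact (Nat.eq_of_mul_eq_mul_left hp h3).symm
      let alg : Algebra E'' E' := (IntermediateField.inclusion hle).toRingHom.toAlgebra
      have hst : IsScalarTower F₀ E'' E' :=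
        IsScalarTower.of_algebraMap_eq fun x => ((IntermediateField.inclusion hle).commutes x).symm
      have hst2 : IsScalarTower E'' E' M := IsScalarTower.of_algebraMap_eq fun x => rfl
      have hst3 : IsScalarTower K E'' E' := IsScalarTower.of_algebraMap_eq fun x => rfl
      have hpos : 0 < finrank F₀ E'' := finrank_pos
      have hcub : finrank E'' E' = ℓ := by
        have h4 := Module.finrank_mul_finrank F₀ E'' E'
        rw [hdbl, mul_comm] at h4
        exact Nat.eq_of_mul_eq_mul_right hpos h4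
      have hG : IsGalois E'' E' := by
        have h5 : IsGalois E'' M := inferInstance
        exact MP_1a91b9_nuT3.S8.galois_of_prime (M := M) hℓ hdeg hcub
      have hr'' : RamG ℓ F₀ E'' := fun q hq => hr q (MP_1a91b9_nuT3.S8.ram_up q hq)
      have hlt : finrank F₀ E'' < k := by
        rw [← hk, hdbl]
        exact lt_mul_of_one_lt_left hpos hℓ.one_lt
      obtain ⟨hT, hCP⟩ := ih (finrank F₀ E'') hlt E'' rfl hr''
      refine ⟨TowerG.step E'' E' hG hcub ?_ ?_ hT, ?_⟩
      · intro v h3 hv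
        have h4 := (hr _ (MP_1a91b9_nuT3.S8.ram_down (k := F₀) v hv)).1
        apply h4
        rw [mem_below, map_natCast]
        exact h3
      · intro v hv
        exact hCP v (hr _ (MP_1a91b9_nuT3.S8.ram_down (k := F₀) v hv)).2
      · intro w hw
        refine cop_up hℓ (by rw [hcub]) w (hCP (below E'' w) ?_)
        rw [below_below]
        exact hw

/-- Subfields of Galois extensions of `F₀` of degree a power of `ℓ`, with the ramification
condition, are towers. -/
theorem towerG_of_galois {ℓ : ℕ} (hℓ : ℓ.Prime) (F : Type u) [Field F] [NumberField F]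
    [Algebra K F] [Algebra F₀ F] [Algebra F M] [IsScalarTower F₀ F M] [IsScalarTower K F₀ F]
    (n : ℕ) (hM : finrank F₀ M = ℓ ^ n) (hF : RamG ℓ F₀ F) : TowerG (Cpy F₀) ℓ F := by
  let f : F →ₐ[F₀] M := IsScalarTower.toAlgHom F₀ F M
  let e : F ≃ₐ[F₀] f.fieldRange := AlgEquiv.ofInjectiveField f
  have hr : RamG ℓ F₀ f.fieldRange := by
    intro q hq
    apply hF q
    let alg2 : Algebra f.fieldRange F := e.symm.toRingEquiv.toRingHom.toAlgebra
    have hst2 : IsScalarTower F₀ f.fieldRange F := IsScalarTower.of_algebraMap_eq fun x =>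
      (e.symm.commutes x).symm
    exact MP_1a91b9_nuT3.S8.ram_up q hq
  exact towerG_congr (P := Cpy F₀) (fun A B _ _ _ _ _ _ h1 h2 => ⟨h2.some.trans h1.some⟩)
    (tower_inter hℓ n hM _ f.fieldRange rfl hr).1 F (e.symm.restrictScalars K)

end

end Pool.Agent.Lib.MP_1a91b9_nuX.TG
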