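import Pool.Agent.Lib.MP_1a91b9_nuX.TG.SubU
import Pool.Agent.Lib.MP_1a91b9_nuX.TG.Cnt
import Pool.Agent.Lib.MP_1a91b9_nuT.TG.GoodK

/-!
# The exceptional primes and the base field
-/

set_option autoImplicit false

namespace Pool.Agent.Lib.MP_1a91b9_nuX.TG

variable [Pool.Agent.Lib.MP_1a91b9_nuT.CD]

open NumberField IsDedekindDomain Module WeierstrassCurve Pool.Agent.Lib.MP_1a91b9_nuT
open Pool.Agent.Lib.MP_1a91b9_nt
open Pool.Agent.Lib.MP_1a91b9_nuX.DB
open Pool.Agent.Lib.MP_1a91b9_nuT.S4 (Lf entire_eq differentiable_conj_conj)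
open Pool.Agent.Lib.MP_1a91b9_nuT.S5 (below mem_below)

universe u

variable [HC]

/-- an element `a ≠ 1` of `𝓞 K`: `a - 1` is prime to almost all primes -/
theorem cop_almost {a : 𝓞 K} (ha : a ≠ 1) : ∃ n : ℕ, n ≠ 0 ∧ ∀ ℓ : ℕ, ℓ.Prime → ¬ ℓ ∣ n →
    IsCoprime (a - 1) (ℓ : 𝓞 K) := by
  refine ⟨Ideal.absNorm (Ideal.span {a - 1}), ?_, fun ℓ hℓ hd => ?_⟩
  · rw [Ne, Ideal.absNorm_eq_zero_iff, Ideal.span_singleton_eq_bot]
    exact sub_ne_zero.2 ha
  · have h1 : (Ideal.absNorm (Ideal.span {a - 1})).Coprime ℓ :=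
      ((Nat.Prime.coprime_iff_not_dvd hℓ).2 hd).symm
    refine (Nat.Coprime.cast h1).of_isCoprime_of_dvd_left ?_
    rw [← Ideal.mem_span_singleton]
    exact Ideal.absNorm_mem _

/-- `ψ v ≠ 1` -/
theorem psi_ne_one {F : Type u} [Field F] [NumberField F] [Algebra K F]
    (v : HeightOneSpectrum (𝓞 F)) : psi F v.asIdeal ≠ 1 := by
  intro h
  by_cases h3 : MP_1a91b9_nuG.up HC.f F ∈ v.asIdeal
  · rw [AN.psi_place_bad v h3] at h
    exact zero_ne_one h
  · have h1 := AN.psC_mul_psbC v.asIdeal (MP_1a91b9_nuG.coprime_of_not_mem v _ h3)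
    have e : embK (((1 : 𝓞 K)) : K) = 1 := by
      have e1 : (((1 : 𝓞 K)) : K) = 1 := map_one (algebraMap (𝓞 K) K)
      rw [e1, map_one]
    rw [AN.psbC, AN.psC, h, e, map_one, one_mul] at h1
    have h2 : Ideal.absNorm v.asIdeal = 1 := by exact_mod_cast h1.symm
    exact v.isPrime.ne_top (Ideal.absNorm_eq_one_iff.mp h2)

/-- The places above `c` are not anomalous for almost all primes. -/
theorem nav_almost {c : 𝓞 K} (hc : c ≠ 0) (F : Type u) [Field F] [NumberField F] [Algebra K F] :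
    ∃ n : ℕ, n ≠ 0 ∧ ∀ ℓ : ℕ, ℓ.Prime → ¬ ℓ ∣ n → ∀ v : HeightOneSpectrum (𝓞 F),
      MP_1a91b9_nuG.up c F ∈ v.asIdeal → IsCoprime (psi F v.asIdeal - 1) (ℓ : 𝓞 K) := by
  classical
  have h0 : MP_1a91b9_nuG.up c F ≠ 0 := fun h0 =>
    hc ((FaithfulSMul.algebraMap_injective (𝓞 K) (𝓞 F)) (by rw [map_zero]; exact h0))
  have hI : Ideal.span {MP_1a91b9_nuG.up c F} ≠ 0 := by
    rw [Ne, Ideal.zero_eq_bot, Ideal.span_singleton_eq_bot]
    exact h0
  have hfin : {v : HeightOneSpectrum (𝓞 F) | MP_1a91b9_nuG.up c F ∈ v.asIdeal}.Finite := by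
    refine (Ideal.finite_factors hI).subset fun v hv => ?_
    exact Ideal.dvd_span_singleton.mpr hv
  choose n hn0 hn using fun v : HeightOneSpectrum (𝓞 F) => cop_almost (psi_ne_one v)
  refine ⟨∏ v ∈ hfin.toFinset, n v, Finset.prod_ne_zero_iff.2 fun v _ => hn0 v,
    fun ℓ hℓ hd v hv => hn v ℓ hℓ fun h => hd (h.trans ?_)⟩
  exact Finset.dvd_prod_of_mem _ ((Set.Finite.mem_toFinset hfin).2 hv)

section
variable {μ : 𝓞 K} {F L : Type} [Field F] [NumberField F] [Algebra K F] [Field L]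
  [NumberField L] [Algebra K L] [Algebra F L] [IsScalarTower K F L] [DecidableEq L]
  {J : Pt L}

/-- the prime `ℓ` is not ramified -/
theorem unr_ab [IsGalois K L] (h : AbT μ K J) {ℓ : ℕ} (hℓ : ℓ.Prime)
    (hD : ¬ (ℓ : ℤ) ∣ CD.bad) (hμ : ¬ ℓ ∣ nAb μ) : DS.UnrL ℓ F := by
  have hK := MP_1a91b9_nuT.DS.unr_base hℓ hD K (Function.bijective_id)
  refine TG.unrL_down hℓ.ne_zero (F := L) ?_
  refine MP_1a91b9_nuT.DS.unr_step (F := K) (fun v hv => ?_) hK
  by_contra hne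
  have h1 : (v.under (𝓞 K)).valuation K (ℓ : K) < 1 := by
    rw [← MP_1a91b9_nuT.DB.val_map_lt, map_natCast]
    exact hv
  have hm : (ℓ : 𝓞 K) ∈ (v.under (𝓞 K)).asIdeal := by
    have e : ((ℓ : 𝓞 K) : K) = ℓ := map_natCast (algebraMap (𝓞 K) K) ℓ
    refine ((v.under (𝓞 K)).valuation_lt_one_iff_mem (K := K) (ℓ : 𝓞 K)).1 ?_
    exact (congrArg (fun z => (v.under (𝓞 K)).valuation K z < 1) e).mpr h1
  refine h.not_ram (v.under (𝓞 K)) (fun h3 => ?_)
    ⟨v, (MP_1a91b9_nuG.le_sq_iff rfl).mpr hne⟩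
  have hc : IsCoprime (gB μ) (ℓ : 𝓞 K) := by
    refine (f_coprime hℓ hD).mul_left (IsCoprime.mul_left ?_ ?_)
    · have h2 : IsCoprime CD.bad (ℓ : ℤ) :=
        ((Prime.coprime_iff_not_dvd (Nat.prime_iff_prime_int.1 hℓ)).2 hD).symm
      have h3 := h2.map (Int.castRingHom (𝓞 K))
      rwa [eq_intCast, eq_intCast, Int.cast_natCast] at h3
    · exact Nat.Coprime.cast (((Nat.Prime.coprime_iff_not_dvd hℓ).2 hμ).symm)
  obtain ⟨a, b, hab⟩ := hc
  apply (v.under (𝓞 K)).isPrime.ne_top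
  rw [Ideal.eq_top_iff_one, ← hab]
  have h3' : gB μ ∈ (v.under (𝓞 K)).asIdeal := h3
  exact (v.under (𝓞 K)).asIdeal.add_mem (Ideal.mul_mem_left _ _ h3') (Ideal.mul_mem_left _ _ hm)

/-- the intermediate fields of the extension generated by a torsion point are Galois -/
theorem galois_of_abT {N F L : Type u} [Field N] [NumberField N] [Algebra K N]
    [Field F] [NumberField F] [Field L] [NumberField L] [Algebra K L]
    [Algebra N F] [Algebra N L] [Algebra F L] [IsScalarTower K N L]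
    [IsScalarTower N F L] [DecidableEq L] [IsGalois N L] {T : Pt L}
    (hT : AbT μ N T) : IsGalois N F := by
  have hfd : FiniteDimensional N L := Module.Finite.of_restrictScalars_finite ℚ N L
  let f : F →ₐ[N] L := IsScalarTower.toAlgHom N F L
  let e : F ≃ₐ[N] f.fieldRange := AlgEquiv.ofInjectiveField f
  have hn : f.fieldRange.fixingSubgroup.Normal := ⟨fun σ hσ τ => by
    rw [hT.comm τ σ, mul_inv_cancel_right]
    exact hσ⟩
  have h1 : IsGalois N (IntermediateField.fixedField f.fieldRange.fixingSubgroup) :=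
    IsGalois.of_fixedField_normal_subgroup _
  rw [IsGalois.fixedField_fixingSubgroup] at h1
  exact IsGalois.of_algEquiv e.symm

omit [HC] in
/-- the ramification of the base field -/
theorem nice_ram (hE : GL.EllK) (h : ∀ w : HeightOneSpectrum (𝓞 F),
    (¬ ∃ C : VariableChange K, GM.GoodW ((w.under (𝓞 K)).valuation K) (C • E K)) →
    (w.asIdeal.ramificationIdx (𝓞 K)).Coprime LF.ww) : LF.Nice F :=
  LF.Nice.up_ram hE h (LF.nice_K hE)

/-- the ramification of the base field -/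
theorem nice_ab (hE : GL.EllK) [IsGalois K L] (h : AbT μ K J) (hd : (finrank K F).Coprime LF.ww) : LF.Nice F := by
  have hG : IsGalois K F := galois_of_abT h
  exact LF.Nice.up hE hd (LF.nice_K hE)

end

/-- The theorem on the base field `F₀`. -/
def BaseThm (F₀ : Type) [Field F₀] [NumberField F₀] [Algebra K F₀] : Prop :=
  ∃ B : ℕ, ∀ (ϖ : 𝓞 K) (ℓ q : ℕ), PD ϖ ℓ q → B < ℓ → VT ϖ ℓ F₀ ∧ DT ϖ F₀

end Pool.Agent.Lib.MP_1a91b9_nuX.TG
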