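import Pool.Agent.Lib.MP_1a91b9_nuX.TG.Dat

/-!
# The nonvanishing over `F₀ = N₀ K` from the nonvanishing over `N₀`
-/

set_option autoImplicit false

namespace Pool.Agent.Lib.MP_1a91b9_nuX.TG

variable [Pool.Agent.Lib.MP_1a91b9_nuT.CD]

open NumberField IsDedekindDomain Module WeierstrassCurve IntermediateField Polynomial
  Pool.Agent.Lib.MP_1a91b9_nuT
open Pool.Agent.Lib.MP_1a91b9_nt
open Pool.Agent.Lib.MP_1a91b9_nuT.S4 (Lf entire_eq differentiable_conj_conj)
open Pool.Agent.Lib.MP_1a91b9_nuT.PT (exists_hom map_om)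

universe u

variable [HC]

/-- the nonvanishing over a field which contains `K` -/
theorem lgood_of_gK {F : Type u} [Field F] [NumberField F] [Algebra K F] (hc : LF.Nice F)
    (W : WeierstrassCurve F) (C : VariableChange F)
    (hC : C • W = E F) {g : ℂ → ℂ} (hg : Differentiable ℂ g)
    (hgs : ∀ s : ℂ, 3 / 2 < s.re → g s = W.LSeries s) (h1 : g 1 ≠ 0) : AN.LGood F := by
  obtain ⟨L, hL, hL1, -⟩ := AN.value_alg F
  refine ⟨L, hL, hL1, fun h0 => h1 ?_⟩
  have hgL : g = fun s => (starRingEnd ℂ) (L ((starRingEnd ℂ) s)) * L s := by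
    refine entire_eq hg ((differentiable_conj_conj hL).mul hL) fun s hs => ?_
    change _ = (starRingEnd ℂ) (L ((starRingEnd ℂ) s)) * L s
    rw [hgs s (by linarith), LF.LSeries_K hc W C hC s (by linarith), hL1 s hs,
      hL1 _ (by rw [Complex.conj_re]; exact hs), LF.Lf_conj]
  rw [hgL]
  change (starRingEnd ℂ) (L ((starRingEnd ℂ) 1)) * L 1 = 0
  rw [h0, mul_zero]

/-- the nonvanishing over a field which does not contain `K` -/
theorem lgood_of_gN {N F : Type u} [Field N] [NumberField N] [Field F] [NumberField F]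
    [Algebra N F] [Algebra K F] (hL : finrank N F = 2)
    (hn : ∀ x : N, algebraMap N F x ≠ algebraMap K F om) (h : LF.Nice F)
    (W : WeierstrassCurve N) (C : VariableChange N) (hC : C • W = E N) {g : ℂ → ℂ} (hg : Differentiable ℂ g)
    (hgs : ∀ s : ℂ, 3 / 2 < s.re → g s = W.LSeries s) (h1 : g 1 ≠ 0) : AN.LGood F := by
  refine ⟨g, hg, fun s hs => ?_, h1⟩
  rw [hgs s (by linarith), LF.LSeries_N hL hn h W (Or.inl ⟨C, hC⟩) s (by linarith)]

theorem lgood_iso {F₀ F : Type} [Field F₀] [NumberField F₀] [Algebra K F₀] [Field F]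
    [NumberField F] [Algebra K F] (e : F₀ ≃ₐ[K] F) (h : AN.LGood F₀) : AN.LGood F := by
  let alg : Algebra F F₀ := (e.symm : F →+* F₀).toAlgebra
  have hst : IsScalarTower K F F₀ := IsScalarTower.of_algebraMap_eq fun x =>
    (e.symm.commutes x).symm
  have hb : Function.Bijective (algebraMap F F₀) := e.symm.bijective
  have hG : IsGalois F F₀ := IsGalois.of_algEquiv (AlgEquiv.ofBijective (Algebra.ofId F F₀) hb)
  have h1 : finrank F F₀ = 1 :=
    (LinearEquiv.ofBijective (Algebra.linearMap F F₀) hb).finrank_eq.symm.trans (finrank_self F)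
  exact lgood_one h1 h

/-- **The nonvanishing over `F₀ = N₀ K`.** -/
theorem lgood_of_N₀ {N₀ F₀ : Type} [Field N₀] [NumberField N₀] [Field F₀] [NumberField F₀]
    [Algebra K F₀] [Algebra N₀ F₀]
    (hN : IntermediateField.adjoin N₀ (Set.range (algebraMap K F₀)) = ⊤) (hc : LF.Nice F₀)
    (W : WeierstrassCurve N₀) (C : VariableChange N₀) (hC : C • W = E N₀) {g : ℂ → ℂ} (hg : Differentiable ℂ g)
    (hgs : ∀ s : ℂ, 3 / 2 < s.re → g s = W.LSeries s) (h1 : g 1 ≠ 0) : AN.LGood F₀ := by
  have hgen : IntermediateField.adjoin N₀ {algebraMap K F₀ om} = ⊤ := by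
    rw [eq_top_iff, ← hN, IntermediateField.adjoin_le_iff]
    rintro _ ⟨z, rfl⟩
    obtain ⟨a, b, rfl⟩ := exists_rat_coords z
    rw [map_add, map_mul, map_ratCast, map_ratCast]
    have h2 : ∀ q : ℚ, (q : F₀) ∈ IntermediateField.adjoin N₀ {algebraMap K F₀ om} := fun q => by
      have h3 := (IntermediateField.adjoin N₀ {algebraMap K F₀ om}).algebraMap_mem (q : N₀)
      rwa [map_ratCast] at h3
    exact add_mem (h2 a) (mul_mem (h2 b) (mem_adjoin_simple_self N₀ _))
  rcases exists_sub F₀ N₀ with ⟨aKN, hst⟩ | ⟨F, _, _, _, _, _, t1, t2, h2, hn⟩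
  · have hb : Function.Bijective (algebraMap N₀ F₀) := by
      refine ⟨(algebraMap N₀ F₀).injective, fun y => ?_⟩
      have h5 : y ∈ (⊥ : IntermediateField N₀ F₀) := by
        have h6 : IntermediateField.adjoin N₀ {algebraMap K F₀ om} ≤ ⊥ := by
          rw [adjoin_simple_le_iff, IntermediateField.mem_bot]
          exact ⟨algebraMap K N₀ om, (IsScalarTower.algebraMap_apply K N₀ F₀ om).symm⟩
        rw [hgen] at h6
        exact h6 mem_top
      exact IntermediateField.mem_bot.1 h5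
    let e : N₀ ≃ₐ[K] F₀ := AlgEquiv.ofBijective (IsScalarTower.toAlgHom K N₀ F₀) hb
    exact lgood_iso e (lgood_of_gK hc.down W C hC hg hgs h1)
  · have hb : Function.Bijective (algebraMap F F₀) := by
      refine ⟨(algebraMap F F₀).injective, fun y => ?_⟩
      have h6 : IntermediateField.adjoin N₀ {algebraMap K F₀ om} ≤
          (IsScalarTower.toAlgHom N₀ F F₀).fieldRange := by
        rw [adjoin_simple_le_iff]
        exact ⟨algebraMap K F om, (IsScalarTower.algebraMap_apply K F F₀ om).symm⟩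
      rw [hgen] at h6
      obtain ⟨z, hz⟩ := h6 (mem_top (x := y))
      exact ⟨z, hz⟩
    let e : F ≃ₐ[K] F₀ := AlgEquiv.ofBijective (IsScalarTower.toAlgHom K F F₀) hb
    exact lgood_iso e (lgood_of_gN h2 hn (hc.down (N := F)) W C hC hg hgs h1)

end Pool.Agent.Lib.MP_1a91b9_nuX.TG
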