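import Pool.Agent.Lib.MP_1a91b9_nuX.TG.Abel
import Pool.Agent.Lib.MP_1a91b9_nuT.TG.Low

/-!
# Descent of the nonvanishing in abelian extensions

Port of MP_1a91b9_nuT/TG/Low.lean.
-/

set_option autoImplicit false

namespace Pool.Agent.Lib.MP_1a91b9_nuX.TG

variable [Pool.Agent.Lib.MP_1a91b9_nuT.CD]

open NumberField IsDedekindDomain WeierstrassCurve Module Pool.Agent.Lib.MP_1a91b9_nuT
open Pool.Agent.Lib.MP_1a91b9_nuX.DB Pool.Agent.Lib.MP_1a91b9_nuX.DX
open Pool.Agent.Lib.MP_1a91b9_nt (nrm nrm_eq)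
open Pool.Agent.Lib.MP_1a91b9_nuG (Ram finite_ram prod_le_iff)
open Pool.Agent.Lib.MP_1a91b9_nuT.S4 (nK Over Lf hasProd_Lf hasProd_over)
open Pool.Agent.Lib.MP_1a91b9_nuX.AN
open Pool.Agent.Lib.MP_1a91b9_nuT.TG (one_cases RayData)

universe u

section
variable [HC] {F F' : Type u} [Field F] [NumberField F] [Field F'] [NumberField F']
  [Algebra F F'] [Algebra K F] [Algebra K F'] [IsScalarTower K F F']

theorem Lf_one [IsGalois F F'] (hL : Module.finrank F F' = 1) (s : ℂ) (hs : 2 < s.re) :
    Lf (psbC F') s = Lf (psbC F) s := by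
  have h4 := (hasProd_Lf (psbC F') (psbC_one F') (psbC_mul F') (1 / 2) (by norm_num)
    norm_psbC_le s (by linarith)).2
  have h5 := hasProd_over (F := F) (F' := F') _ _ h4
  have h6 := (hasProd_Lf (psbC F) (psbC_one F) (psbC_mul F) (1 / 2) (by norm_num)
    norm_psbC_le s (by linarith)).2
  refine h5.unique ?_
  have e : (fun v : HeightOneSpectrum (𝓞 F) => ∏ w : Over F' v,
      (1 - psbC F' w.1.asIdeal * (Ideal.absNorm w.1.asIdeal : ℂ) ^ (-s))⁻¹) = fun v =>
      (1 - psbC F v.asIdeal * (Ideal.absNorm v.asIdeal : ℂ) ^ (-s))⁻¹ := by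
    funext v
    obtain ⟨h7, h8⟩ := one_cases hL v
    rw [Finset.prod_congr rfl (g := fun _ =>
      (1 - psbC F v.asIdeal * (Ideal.absNorm v.asIdeal : ℂ) ^ (-s))⁻¹)]
    · rw [Finset.prod_const, Finset.card_univ, h7, pow_one]
    · intro w _
      have h9 := (h8 w).2
      rw [nrm_eq, nrm_eq] at h9
      rw [psbC_over v w, (h8 w).1, pow_one, h9]
  rw [e]
  exact h6

theorem lgood_one [IsGalois F F'] (hL : Module.finrank F F' = 1) (h : LGood F') :
    LGood F := by
  obtain ⟨L, h1, h2, h3⟩ := h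
  exact ⟨L, h1, fun s hs => by rw [h2 s hs, Lf_one hL s hs], h3⟩

theorem unit_one [IsGalois F F'] (hL : Module.finrank F F' = 1) {ℓ : ℕ} {Ω : ℂ}
    (h : UnitProp ℓ Ω F') : UnitProp ℓ Ω F := by
  obtain ⟨L, h1, h2, h3⟩ := h
  refine ⟨L, h1, fun s hs => ?_, fun W hW => ?_⟩
  · rw [h2 s hs, Lf_one hL s hs]
  · rw [← h3 W hW, ← Module.finrank_mul_finrank K F F', hL, mul_one]

end

variable [HC]

section
variable {μ : 𝓞 K} {N N₁ L : Type u} [Field N] [NumberField N] [Algebra K N] [Field N₁]
  [NumberField N₁] [Algebra K N₁] [Field L] [NumberField L] [Algebra K L] [Algebra N N₁]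
  [Algebra N L] [Algebra N₁ L] [IsScalarTower K N N₁] [IsScalarTower K N L]
  [IsScalarTower K N₁ L] [IsScalarTower N N₁ L] [DecidableEq L]
  {T : Pt L}

/-- descent in a step of prime degree -/
theorem lgood_step [IsGalois N N₁] [IsGalois N L] (hT : AbT μ N T) {p : ℕ} (hp : p.Prime)
    (hd : finrank N N₁ = p) (h : LGood N₁) : LGood N := by
  have hfp : Fact p.Prime := ⟨hp⟩
  obtain ⟨R, hR⟩ : ∃ R : Finset (HeightOneSpectrum (𝓞 N)), ∀ v, v ∈ R ↔
      MP_1a91b9_nuG.Ram N₁ v := by
    refine ⟨(finite_ram (F := N) N₁).toFinset, fun v => ?_⟩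
    rw [Set.Finite.mem_toFinset]
    rfl
  obtain ⟨c, hc⟩ : ∃ c : 𝓞 N, c = MP_1a91b9_nuG.up (gB μ) N := ⟨_, rfl⟩
  have hc0 : c ≠ 0 := by
    rw [hc]
    intro h0
    exact gB_ne hT.ne ((FaithfulSMul.algebraMap_injective (𝓞 K) (𝓞 N)) (by rw [map_zero]; exact h0))
  have hcu : ¬ IsUnit c := by
    intro hu
    rw [hc] at hu
    apply up_span_ne_top (F := N)
    rw [Ideal.one_eq_top, Ideal.span_singleton_eq_top]
    exact isUnit_of_dvd_unit (map_dvd (algebraMap (𝓞 K) (𝓞 N)) (f_dvd_gB μ)) hu
  obtain ⟨m, hm⟩ : ∃ m : Ideal (𝓞 N), m = Ideal.span {c} * ∏ w ∈ R, w.asIdeal := ⟨_, rfl⟩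
  have hm0 : m ≠ 0 := by
    rw [hm]
    refine mul_ne_zero ?_ (Finset.prod_ne_zero_iff.mpr fun w _ => w.ne_bot)
    rw [Ne, Ideal.zero_eq_bot, Ideal.span_singleton_eq_bot]
    exact hc0
  have hle : m ≤ Ideal.span {c} := by
    rw [hm]
    exact Ideal.mul_le_left
  have hm1 : m ≠ 1 := by
    intro h1
    rw [h1, Ideal.one_eq_top, top_le_iff, Ideal.span_singleton_eq_top] at hle
    exact hcu hle
  have hram : ∀ v : HeightOneSpectrum (𝓞 N), MP_1a91b9_nuG.Ram N₁ v → m ≤ v.asIdeal := by
    intro v hv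
    rw [hm, v.isPrime.mul_le]
    right
    rw [prod_le_iff]
    exact (hR v).2 hv
  have hm3 : m ≤ Ideal.span {MP_1a91b9_nuG.up HC.f N} := by
    refine hle.trans ?_
    rw [Ideal.span_singleton_le_span_singleton, hc]
    exact map_dvd (algebraMap (𝓞 K) (𝓞 N)) (f_dvd_gB μ)
  rw [hc] at hle
  obtain ⟨x, hx⟩ := hT.exists_rayData (N₁ := N₁) hle hd hm1 hram
  obtain ⟨q, hq, hq3, hmq, hV⟩ := exists_valueProp N m hm0
  exact lgood_desc hd hm0 hm1 hm3 hx hq.ne_zero hq3 hmq hV h

/-- the Galois group is commutative -/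
theorem AbT.comm (hT : AbT μ N T) (σ τ : Gal(L/N)) : σ * τ = τ * σ := by
  obtain ⟨c, -, hc⟩ := gal_sm (k := N) hT.ne hT.ord σ
  obtain ⟨d, -, hd⟩ := gal_sm (k := N) hT.ne hT.ord τ
  have h1 : ga (σ * τ) T = ga (τ * σ) T := by
    rw [ga_mul, ga_mul, hc, hd, ga_sm, ga_sm, hc, hd]
    have h2 : sm L d (sm L c T) = sm L (d * c) T := by
      rw [map_mul]
      rfl
    have h3 : sm L c (sm L d T) = sm L (c * d) T := by
      rw [map_mul]
      rfl
    rw [h2, h3, mul_comm]
  have h2 : ga ((τ * σ)⁻¹ * (σ * τ)) T = T := by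
    rw [ga_mul, h1, ← ga_mul, inv_mul_cancel, ga_one]
  have h3 := hT.gen _ h2
  rw [inv_mul_eq_one] at h3
  exact h3.symm

end

/-- **Descent of the nonvanishing** in the extensions generated by torsion points. -/
theorem lgood_abT (μ : 𝓞 K) (d : ℕ) : ∀ (N F L : Type u) [Field N] [NumberField N] [Algebra K N]
    [Field F] [NumberField F] [Algebra K F] [Field L] [NumberField L] [Algebra K L]
    [Algebra N F] [Algebra N L] [Algebra F L] [IsScalarTower K N F] [IsScalarTower K N L]
    [IsScalarTower K F L] [IsScalarTower N F L] [DecidableEq L] [IsGalois N L] (T : Pt L)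
    (_ : AbT μ N T), finrank N F = d → LGood F → LGood N := by
  induction d using Nat.strong_induction_on with
  | _ d ih =>
    intro N F L _ _ _ _ _ _ _ _ _ _ _ _ _ _ _ _ _ _ T hT hd hF
    have hfd : FiniteDimensional N L := Module.Finite.of_restrictScalars_finite ℚ N L
    have hfd' : FiniteDimensional N F := Module.Finite.of_restrictScalars_finite ℚ N F
    -- the extension `F / N` is Galois
    have hG : IsGalois N F := by
      let f : F →ₐ[N] L := IsScalarTower.toAlgHom N F L
      let e : F ≃ₐ[N] f.fieldRange := AlgEquiv.ofInjectiveField f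
      have hn : f.fieldRange.fixingSubgroup.Normal := ⟨fun σ hσ τ => by
        rw [hT.comm τ σ, mul_inv_cancel_right]
        exact hσ⟩
      have h1 : IsGalois N (IntermediateField.fixedField f.fieldRange.fixingSubgroup) :=
        IsGalois.of_fixedField_normal_subgroup _
      rw [IsGalois.fixedField_fixingSubgroup] at h1
      exact IsGalois.of_algEquiv e.symm
    by_cases hd1 : d = 1
    · exact lgood_one (by rw [hd, hd1]) hF
    · obtain ⟨p, hp, hpd⟩ := Nat.exists_prime_and_dvd hd1
      have hfp : Fact p.Prime := ⟨hp⟩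
      have hcardG : Nat.card Gal(F/N) = d := by rw [IsGalois.card_aut_eq_finrank, hd]
      obtain ⟨σ, hσ⟩ := exists_prime_orderOf_dvd_card' (G := Gal(F/N)) p (by rw [hcardG]; exact hpd)
      obtain ⟨M, hM⟩ : ∃ M : IntermediateField N F,
          M = IntermediateField.fixedField (Subgroup.zpowers σ) := ⟨_, rfl⟩
      have hpM : finrank M F = p := by
        rw [hM, IntermediateField.finrank_fixedField_eq_card, Nat.card_zpowers, hσ]
      have hmul : finrank N M * p = d := by
        rw [← hpM, Module.finrank_mul_finrank, hd]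
      have hpos : 0 < finrank N M := finrank_pos
      have hlt : finrank N M < d := by
        rw [← hmul]
        exact lt_mul_of_one_lt_right hpos hp.one_lt
      have t1 : IsScalarTower M F L := inferInstance
      have t2 : IsScalarTower N M L := IsScalarTower.of_algebraMap_eq fun x => by
        rw [IsScalarTower.algebraMap_apply N F L]
        rfl
      have t3 : IsScalarTower K M F := IsScalarTower.of_algebraMap_eq fun x => rfl
      have t4 : IsScalarTower K M L := IsScalarTower.of_algebraMap_eq fun x => by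
        rw [IsScalarTower.algebraMap_apply K F L]
        rfl
      have t5 : IsScalarTower K N M := IsScalarTower.of_algebraMap_eq fun x => by
        apply (algebraMap M F).injective
        rw [← IsScalarTower.algebraMap_apply K M F, ← IsScalarTower.algebraMap_apply N M F,
          ← IsScalarTower.algebraMap_apply K N F]
      have g1 : IsGalois M F := IsGalois.tower_top_of_isGalois N M F
      have g2 : IsGalois M L := IsGalois.tower_top_of_isGalois N M L
      have hT' : AbT μ M T := ⟨hT.ne, hT.ord, fun τ hτ => by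
        have h1 := hT.gen (toF N τ) hτ
        apply AlgEquiv.ext
        intro y
        rw [← toF_apply (F := N) τ y, h1]
        rfl⟩
      have hMg : LGood M := lgood_step hT' hp hpM hF
      exact ih (finrank N M) hlt N M L T hT rfl hMg

end Pool.Agent.Lib.MP_1a91b9_nuX.TG
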