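import Pool.Agent.Lib.MP_1a91b9_nuX.TG.Red
import Pool.Agent.Lib.MP_1a91b9_nuX.TG.LG
import Pool.Agent.Lib.MP_1a91b9_nuX.DG.Base
import Pool.Agent.Lib.MP_1a91b9_nuX.PX.Dat
import Pool.Agent.Lib.MP_1a91b9_nuT3.S8.Trans

/-!
# Theorem G3: towers over abelian fields for all the curves with complex multiplication
-/

set_option autoImplicit false

namespace Pool.Agent.Lib.MP_1a91b9_nuX.TG

open NumberField IsDedekindDomain Module WeierstrassCurve Pool.Agent.Lib.MP_1a91b9_nuT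
open Pool.Agent.Lib.MP_1a91b9_nt
open Pool.Agent.Lib.MP_1a91b9_nuX.DB
open Pool.Agent.Lib.MP_1a91b9_nuX.LF (dK)

/-- The ramification condition for the curve `y² = x³ + A x + B`, outside of the places above `c`. -/
def RamX (ℓ : ℕ) (A B c : ℤ) (F₀ L : Type) [Field F₀] [NumberField F₀]
    [Field L] [NumberField L] [Algebra F₀ L] : Prop :=
  ∀ (v : HeightOneSpectrum (𝓞 F₀)) (w : HeightOneSpectrum (𝓞 L)),
    v.asIdeal.map (algebraMap (𝓞 F₀) (𝓞 L)) ≤ w.asIdeal ^ 2 →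
      (ℓ : 𝓞 F₀) ∉ v.asIdeal ∧ (((c : ℤ) : 𝓞 F₀) ∉ v.asIdeal →
        ¬ ℓ ∣ Nat.card (⟨0, 0, 0, ((A : ℤ) : 𝓞 F₀ ⧸ v.asIdeal), ((B : ℤ) : 𝓞 F₀ ⧸ v.asIdeal)⟩ :
          WeierstrassCurve (𝓞 F₀ ⧸ v.asIdeal)).toAffine.Point)

/-- The curve `W` is isomorphic over `N` to `y² = x³ + A x + B`, to its quadratic twist by `d`, or
(if `B = 0`) to `y² = x³ - 4 A x`. -/
def Tw (A B d : ℤ) {N : Type} [Field N] (W : WeierstrassCurve N) : Prop :=
  (∃ C : VariableChange N, C • W = ⟨0, 0, 0, ((A : ℤ) : N), ((B : ℤ) : N)⟩) ∨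
    ∃ C : VariableChange N, C • W = ⟨0, 0, 0,
      (((if B = 0 then -4 * A else A * d ^ 2 : ℤ)) : N), ((B * d ^ 3 : ℤ) : N)⟩

/-- The conclusion for all the fields of the tower; `e` is the degree of the base field over the
field of complex multiplication and `d` is the discriminant of that field. -/
def TowX (ℓ : ℕ) (A B d c : ℤ) (e : ℕ) (F₀ : Type) [Field F₀] [NumberField F₀] : Prop :=
  ∀ (n : ℕ) (N L M : Type) [Field N] [NumberField N] [Field L] [NumberField L] [Field M]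
    [NumberField M] [Algebra N L] [Algebra F₀ L] [Algebra L M] [Algebra F₀ M]
    [IsScalarTower F₀ L M] [IsGalois F₀ M], finrank F₀ M = ℓ ^ n → RamX ℓ A B c F₀ L →
    ∀ (W : WeierstrassCurve N) (C : VariableChange L),
      C • W.baseChange L = ⟨0, 0, 0, ((A : ℤ) : L), ((B : ℤ) : L)⟩ →
      (¬ e.Coprime (if A = 0 then 6 else 2) → Tw A B d W) →
      ConclR W ∧ ∀ _ : Fact ℓ.Prime, MP_1a91b9_nuT.PL.Concl ℓ W

/-- The ramification indices above `6 (4 A³ + 27 B²)` are prime to `2` (to `6` if `A = 0`). -/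
def RamW (A B : ℤ) (k F₀ : Type) [Field k] [NumberField k] [Field F₀] [NumberField F₀]
    [Algebra k F₀] : Prop :=
  ∀ w : HeightOneSpectrum (𝓞 F₀), ((6 * (4 * A ^ 3 + 27 * B ^ 2) : ℤ) : 𝓞 F₀) ∈ w.asIdeal →
    (w.asIdeal.ramificationIdx (𝓞 k)).Coprime (if A = 0 then 6 else 2)

section
variable [CD] [HC] {N₀ F₀ L₀ : Type} [Field N₀] [NumberField N₀] [Field F₀] [NumberField F₀]
  [Algebra K F₀] [Algebra N₀ F₀] [Field L₀] [NumberField L₀] [Algebra K L₀] [Algebra F₀ L₀]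
  [IsScalarTower K F₀ L₀] [DecidableEq L₀]

/-- **Theorem G3** over the concrete field `K`. -/
theorem thmX_K (hE : GL.EllK) {A₀ B₀ k c : ℤ} (hk : k ≠ 0) (hA : CD.A = k ^ 4 * A₀) (hB : CD.B = k ^ 6 * B₀)
    (hc : c ≠ 0)
    (hN : IntermediateField.adjoin N₀ (Set.range (algebraMap K F₀)) = ⊤) (x y : L₀)
    (hxy : (⟨0, 0, 0, ((A₀ : ℤ) : L₀), ((B₀ : ℤ) : L₀)⟩ :
      WeierstrassCurve L₀).toAffine.Nonsingular x y)
    (ht : IsOfFinAddOrder (Affine.Point.some x y hxy))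
    (hL₀ : IntermediateField.adjoin K {x, y} = ⊤)
    (hr : ¬ (finrank K F₀).Coprime (if A₀ = 0 then 6 else 2) → RamW A₀ B₀ K F₀)
    (hg : ∃ g : ℂ → ℂ, Differentiable ℂ g ∧ (∀ s : ℂ, 3 / 2 < s.re →
      g s = (⟨0, 0, 0, ((A₀ : ℤ) : N₀), ((B₀ : ℤ) : N₀)⟩ : WeierstrassCurve N₀).LSeries s) ∧
      g 1 ≠ 0) :
    ∃ S : Finset ℕ, ∀ ℓ : ℕ, ℓ.Prime → ℓ ∉ S → TowX ℓ A₀ B₀ dK c (finrank K F₀) F₀ := by
  obtain ⟨T, n₀, hn₀, hT, hx, hy⟩ := scale_tors hk hA hB x y hxy ht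
  have hgen := scale_gen hk hx hy hL₀
  obtain ⟨μ, hμ, hO⟩ := exists_ann hn₀ hT
  have hGal : IsGalois K L₀ := gal_of_gen hμ hO hgen
  have hAb : AbT μ K T := ⟨hμ, hO, eq_one_of_gen hgen⟩
  have hww := scale_ww hk hA
  have hnice : LF.Nice F₀ := by
    by_cases h6 : (finrank K F₀).Coprime LF.ww
    · exact nice_ab hE hAb h6
    · refine nice_ram hE fun w hw => ?_
      rw [hww] at h6 ⊢
      refine hr h6 w ?_
      by_contra hcon
      refine hw (good_of_disc hk hA hB _ fun h1 => hcon ?_)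
      have h2 : algebraMap (𝓞 K) (𝓞 F₀) ((6 * (4 * A₀ ^ 3 + 27 * B₀ ^ 2) : ℤ) : 𝓞 K) ∈
          w.asIdeal := h1
      rwa [map_intCast] at h2
  obtain ⟨g, hg1, hg2, hg3⟩ := hg
  obtain ⟨C₀, hC₀⟩ := scale_curve hk hA hB (F := N₀)
    (W := ⟨0, 0, 0, ((A₀ : ℤ) : N₀), ((B₀ : ℤ) : N₀)⟩) (C := 1) (one_smul _ _)
  have hgood := lgood_of_N₀ hN hnice _ C₀ hC₀ hg1 hg2 hg3
  have hbase : BaseThm F₀ := DG.base_all hn₀ hT hgen hgood
  have hcb : ((c * CD.bad : ℤ) : 𝓞 K) ≠ 0 :=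
    Int.cast_ne_zero.2 (mul_ne_zero hc CD.bad_ne)
  have hcd : ((CD.bad : ℤ) : 𝓞 K) ∣ ((c * CD.bad : ℤ) : 𝓞 K) :=
    map_dvd (Int.castRingHom (𝓞 K)) (Dvd.intro_left c rfl)
  obtain ⟨n, hn, H⟩ := goodEll_almost hAb hnice hgood hbase hcb
  refine ⟨n.primeFactors, fun ℓ hℓ hS => ?_⟩
  have hdv : ¬ ℓ ∣ n := fun h => hS (Nat.mem_primeFactors.2 ⟨hℓ, h, hn⟩)
  intro m N L M _ _ _ _ _ _ _ _ _ _ _ _ hM hL W C hC hW
  obtain ⟨C', hC'⟩ := scale_curve hk hA hB hC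
  have hR := scale_ram hk hA hB hL
  have hW' : ¬ (finrank K F₀).Coprime LF.ww →
      (∃ D : VariableChange N, D • W = LF.crv (cA N) (cB N)) ∨
      ∃ D : VariableChange N, D • W = LF.crv ((LF.tA : ℤ) : N) ((LF.tB : ℤ) : N) := by
    intro h
    rw [hww] at h
    exact scale_tw hk hA hB (hW h)
  exact ⟨concl_ell hAb hcd (H ℓ hℓ hdv) N L M m hM hR W C' hC' hW',
    fun hF => PX.conclP_ell hAb hcd (H ℓ hℓ hdv) N L M m hM hR W C' hC' hW'⟩

end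

/-- The ramification indices over isomorphic fields. -/
theorem ramW_equiv {A B : ℤ} {K₀ K₁ F₀ : Type} [Field K₀] [NumberField K₀] [Field K₁]
    [NumberField K₁] [Field F₀] [NumberField F₀] [Algebra K₀ F₀] [Algebra K₁ F₀]
    (e : K₁ →+* K₀) (f : K₀ →+* K₁) (hf : ∀ x, e (f x) = x)
    (he : ∀ x, algebraMap K₁ F₀ x = algebraMap K₀ F₀ (e x)) (h : RamW A B K₀ F₀) :
    RamW A B K₁ F₀ := by
  intro w hw
  refine Nat.Coprime.coprime_dvd_left ?_ (h w hw)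
  let a : Algebra K₀ K₁ := f.toAlgebra
  have t : IsScalarTower K₀ K₁ F₀ := IsScalarTower.of_algebraMap_eq fun x => by
    change algebraMap K₀ F₀ x = algebraMap K₁ F₀ (f x)
    rw [he, hf]
  have i1 : (w.under (𝓞 K₁)).asIdeal.IsPrime := (w.under (𝓞 K₁)).isPrime
  have i3 : w.asIdeal.LiesOver (w.under (𝓞 K₁)).asIdeal := ⟨rfl⟩
  exact Ideal.ramificationIdx_above_dvd (R := 𝓞 K₀) (w.under (𝓞 K₁)).asIdeal w.asIdeal

/-- **Theorem G3.** -/
theorem thmX [CD] [HC] (hE : GL.EllK) (K₀ N₀ F₀ L₀ : Type) [Field K₀] [NumberField K₀] (hK : finrank ℚ K₀ = 2)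
    {w : K₀} (hw : w ^ 2 = (CD.tr : K₀) * w - (CD.nm : K₀)) [Field N₀] [NumberField N₀] [Field F₀]
    [NumberField F₀] [Field L₀] [NumberField L₀] [DecidableEq L₀] [Algebra K₀ F₀] [Algebra N₀ F₀]
    [Algebra K₀ L₀] [Algebra F₀ L₀] [IsScalarTower K₀ F₀ L₀] {A₀ B₀ k c : ℤ} (hk : k ≠ 0)
    (hA : CD.A = k ^ 4 * A₀) (hB : CD.B = k ^ 6 * B₀) (hc : c ≠ 0)
    (hN : IntermediateField.adjoin N₀ (Set.range (algebraMap K₀ F₀)) = ⊤) (x y : L₀)
    (hxy : (⟨0, 0, 0, ((A₀ : ℤ) : L₀), ((B₀ : ℤ) : L₀)⟩ :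
      WeierstrassCurve L₀).toAffine.Nonsingular x y)
    (ht : IsOfFinAddOrder (Affine.Point.some x y hxy))
    (hL₀ : IntermediateField.adjoin K₀ {x, y} = ⊤)
    (hr : ¬ (finrank K₀ F₀).Coprime (if A₀ = 0 then 6 else 2) → RamW A₀ B₀ K₀ F₀)
    (hg : ∃ g : ℂ → ℂ, Differentiable ℂ g ∧ (∀ s : ℂ, 3 / 2 < s.re →
      g s = (⟨0, 0, 0, ((A₀ : ℤ) : N₀), ((B₀ : ℤ) : N₀)⟩ : WeierstrassCurve N₀).LSeries s) ∧
      g 1 ≠ 0) :
    ∃ S : Finset ℕ, ∀ ℓ : ℕ, ℓ.Prime → ℓ ∉ S → TowX ℓ A₀ B₀ dK c (finrank K₀ F₀) F₀ := by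
  obtain ⟨e, he⟩ := MP_1a91b9_nuT3.S8.exists_equiv hK hw
  let aF : Algebra K F₀ := ((algebraMap K₀ F₀).comp e.toRingHom).toAlgebra
  let aL : Algebra K L₀ := ((algebraMap K₀ L₀).comp e.toRingHom).toAlgebra
  have hFe : ∀ x : K, algebraMap K F₀ x = algebraMap K₀ F₀ (e x) := fun x => rfl
  have hLe : ∀ x : K, algebraMap K L₀ x = algebraMap K₀ L₀ (e x) := fun x => rfl
  have hst : IsScalarTower K F₀ L₀ := IsScalarTower.of_algebraMap_eq fun x => by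
    rw [hLe, hFe]
    exact IsScalarTower.algebraMap_apply K₀ F₀ L₀ (e x)
  have hfin : finrank K F₀ = finrank K₀ F₀ := by
    have h1 := finrank_mul_finrank ℚ K F₀
    have h2 := finrank_mul_finrank ℚ K₀ F₀
    rw [finrank_K] at h1
    rw [hK] at h2
    omega
  have hrange : Set.range (algebraMap K F₀) = Set.range (algebraMap K₀ F₀) := by
    ext z
    constructor
    · rintro ⟨u, rfl⟩
      exact ⟨e u, rfl⟩
    · rintro ⟨u, rfl⟩
      exact ⟨e.symm u, by rw [hFe, RingEquiv.apply_symm_apply]⟩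
  have hgen : IntermediateField.adjoin K {x, y} = (⊤ : IntermediateField K L₀) := by
    obtain ⟨A, hA⟩ : ∃ A : IntermediateField K L₀, A = IntermediateField.adjoin K {x, y} :=
      ⟨_, rfl⟩
    let B : IntermediateField K₀ L₀ := A.toSubfield.toIntermediateField fun z => by
      change algebraMap K₀ L₀ z ∈ A
      have h4 := A.algebraMap_mem (e.symm z)
      rwa [hLe, RingEquiv.apply_symm_apply] at h4
    have hB : B = ⊤ := by
      rw [eq_top_iff, ← hL₀, IntermediateField.adjoin_le_iff]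
      intro z hz
      change z ∈ A
      rw [hA]
      exact IntermediateField.subset_adjoin K {x, y} hz
    rw [← hA, eq_top_iff]
    intro z _
    have h4 : z ∈ B := by
      rw [hB]
      exact IntermediateField.mem_top
    exact h4
  have key := thmX_K hE hk hA hB hc (by rw [hrange]; exact hN) x y hxy ht hgen (fun h => by
    rw [hfin] at h
    exact ramW_equiv (K₀ := K₀) (K₁ := K) e.toRingHom e.symm.toRingHom
      (fun x => e.apply_symm_apply x) hFe (hr h)) hg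
  rwa [hfin] at key

end Pool.Agent.Lib.MP_1a91b9_nuX.TG
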