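import Pool.Agent.Lib.MP_1a91b9_nuX.TG.Analytic
import Pool.Agent.Lib.MP_1a91b9_nuX.AN.ESum
import Pool.Agent.Lib.MP_1a91b9_nuT.TG.Step

/-!
# Descent of the nonvanishing in a cyclic extension of prime degree

Port of MP_1a91b9_nuT/TG/Step.lean.
-/

set_option autoImplicit false

namespace Pool.Agent.Lib.MP_1a91b9_nuX.TG

variable [Pool.Agent.Lib.MP_1a91b9_nuT.CD]

open NumberField IsDedekindDomain Pool.Agent.Lib.MP_1a91b9_nt Pool.Agent.Lib.MP_1a91b9_nuT
open Pool.Agent.Lib.MP_1a91b9_nuT.S4 (Over Lf hasProd_Lf hasProd_over indC indC_of indC_of_not indC_one indC_mul norm_indC_le entire_eq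
  le_iff_not_coprime differentiable_euler)
open Pool.Agent.Lib.MP_1a91b9_nuG (up Ram addI addI_place addI_one addI_mul ValueProp
  cyc_cases prod_one_sub_mul)
open Pool.Agent.Lib.MP_1a91b9_nuX.AN
open Pool.Agent.Lib.MP_1a91b9_nuT.TG (RayData chr chr_of chr_of_not chr_one chr_mul norm_chr_le chr_zero RayData.chr_ray RayData.unr RayData.split coprime_map_iff)

universe u

section
variable {F F' : Type u} [Field F] [NumberField F] [Field F'] [NumberField F'] [Algebra F F']
  [Algebra K F] [Algebra K F'] [IsScalarTower K F F'] [HC]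
  {p : ℕ} [hp : Fact p.Prime]

/-- The factorisation of the Euler factor outside of `m`. -/
theorem euler_ray [IsGalois F F'] (hL : Module.finrank F F' = p) {m : Ideal (𝓞 F)}
    {x : HeightOneSpectrum (𝓞 F) → ZMod p} (hx : RayData p F' m x) (v : HeightOneSpectrum (𝓞 F))
    (s : ℂ) :
    ∏ w : Over F' v, (1 - (psbC F' w.1.asIdeal *
        indC (m.map (algebraMap (𝓞 F) (𝓞 F'))) w.1.asIdeal) *
        (Ideal.absNorm w.1.asIdeal : ℂ) ^ (-s))⁻¹ =
      ∏ j : ZMod p, (1 - (psbC F v.asIdeal * chr x m j v.asIdeal) *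
        (Ideal.absNorm v.asIdeal : ℂ) ^ (-s))⁻¹ := by
  classical
  by_cases hm : m ≤ v.asIdeal
  · have hc : ∀ j, chr x m j v.asIdeal = 0 := fun j =>
      chr_of_not ((le_iff_not_coprime m v).mp hm)
    simp only [hc, mul_zero, zero_mul, sub_zero, inv_one, Finset.prod_const_one]
    refine Finset.prod_eq_one fun w _ => ?_
    rw [indC_of_not (fun h => (coprime_map_iff m v w).mp h hm), mul_zero, zero_mul, sub_zero,
      inv_one]
  · have hcop : IsCoprime v.asIdeal m := by
      by_contra h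
      exact hm ((le_iff_not_coprime m v).mpr h)
    have hi : ∀ w : Over F' v, indC (m.map (algebraMap (𝓞 F) (𝓞 F'))) w.1.asIdeal = 1 :=
      fun w => indC_of ((coprime_map_iff m v w).mpr hm)
    have hc : ∀ j, chr x m j v.asIdeal = ZMod.stdAddChar (j * x v) := fun j => by
      rw [chr_of hcop, addI_place]
    simp only [hi, hc, mul_one]
    rcases cyc_cases hp.out hL v with ⟨h0, h1, h2⟩ | ⟨h0, h1, h2⟩ | ⟨h0, h1, h2⟩
    · have hx0 : x v = 0 := (hx.split v hm).mpr h1
      simp only [hx0, mul_zero, AddChar.map_zero_eq_one, mul_one]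
      rw [Finset.prod_congr rfl (g := fun _ =>
        (1 - psbC F v.asIdeal * (Ideal.absNorm v.asIdeal : ℂ) ^ (-s))⁻¹)]
      · rw [Finset.prod_const, Finset.prod_const, Finset.card_univ, h1, Finset.card_univ,
          ZMod.card]
      · intro w _
        have h3 := (h2 w).2
        rw [nrm_eq, nrm_eq] at h3
        rw [psbC_over v w, (h2 w).1, pow_one, h3]
    · have hx0 : x v ≠ 0 := by
        intro h
        have := (hx.split v hm).mp h
        rw [h1] at this
        exact hp.out.one_lt.ne this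
      have e2 : ∏ j : ZMod p, (1 - psbC F v.asIdeal * ZMod.stdAddChar (j * x v) *
          (Ideal.absNorm v.asIdeal : ℂ) ^ (-s)) =
          1 - (psbC F v.asIdeal * (Ideal.absNorm v.asIdeal : ℂ) ^ (-s)) ^ p := by
        rw [← prod_one_sub_mul (x v) hx0]
        refine Finset.prod_congr rfl fun j _ => ?_
        ring
      rw [Finset.prod_inv_distrib (f := fun j => 1 - psbC F v.asIdeal *
        ZMod.stdAddChar (j * x v) * (Ideal.absNorm v.asIdeal : ℂ) ^ (-s)), e2]
      rw [Finset.prod_congr rfl (g := fun _ =>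
        (1 - (psbC F v.asIdeal * (Ideal.absNorm v.asIdeal : ℂ) ^ (-s)) ^ p)⁻¹)]
      · rw [Finset.prod_const, Finset.card_univ, h1, pow_one]
      · intro w _
        have h3 := (h2 w).2
        rw [nrm_eq, nrm_eq] at h3
        rw [psbC_over v w, (h2 w).1, h3, mul_pow]
        congr 3
        rw [Nat.cast_pow, ← Complex.natCast_cpow_natCast_mul, Complex.cpow_nat_mul]
    · exact absurd h0 (hx.unr v hm)

/-- The factorisation of the series outside of `m`. -/
theorem ray_Lf [IsGalois F F'] (hL : Module.finrank F F' = p) {m : Ideal (𝓞 F)} (hm1 : m ≠ 1)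
    {x : HeightOneSpectrum (𝓞 F) → ZMod p} (hx : RayData p F' m x) (s : ℂ) (hs : 2 < s.re) :
    Lf (fun I => psbC F' I * indC (m.map (algebraMap (𝓞 F) (𝓞 F'))) I) s =
      ∏ j : ZMod p, Lf (fun I => psbC F I * chr x m j I) s := by
  have h1 := (hasProd_Lf (fun I => psbC F' I * indC (m.map (algebraMap (𝓞 F) (𝓞 F'))) I)
    (by rw [psbC_one, indC_one, mul_one])
    (fun I J => by rw [psbC_mul, indC_mul]; ring) (1 / 2) (by norm_num)
    (fun I => norm_psbC_mul_le _ I (norm_indC_le _ I)) s (by linarith)).2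
  have h2 := hasProd_over (F := F) (F' := F') _ _ h1
  have h4 : HasProd (fun v : HeightOneSpectrum (𝓞 F) => ∏ j : ZMod p,
      (1 - (psbC F v.asIdeal * chr x m j v.asIdeal) *
        (Ideal.absNorm v.asIdeal : ℂ) ^ (-s))⁻¹)
      (∏ j : ZMod p, Lf (fun I => psbC F I * chr x m j I) s) :=
    hasProd_prod fun j _ => (hasProd_Lf (fun I => psbC F I * chr x m j I)
      (by rw [psbC_one, chr_one, mul_one])
      (fun I J => by rw [psbC_mul, chr_mul x hm1]; ring) (1 / 2) (by norm_num)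
      (fun I => norm_psbC_mul_le _ I (norm_chr_le x m j I)) s (by linarith)).2
  refine h2.unique ?_
  have e : (fun v : HeightOneSpectrum (𝓞 F) => ∏ w : Over F' v, (1 - (psbC F' w.1.asIdeal *
        indC (m.map (algebraMap (𝓞 F) (𝓞 F'))) w.1.asIdeal) *
        (Ideal.absNorm w.1.asIdeal : ℂ) ^ (-s))⁻¹) = fun v => ∏ j : ZMod p,
      (1 - (psbC F v.asIdeal * chr x m j v.asIdeal) *
        (Ideal.absNorm v.asIdeal : ℂ) ^ (-s))⁻¹ := funext fun v => euler_ray hL hx v s
  rw [e]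
  exact h4

end

/-- **Descent of the nonvanishing.** -/
theorem lgood_desc [HC] {F F' : Type u} [Field F] [NumberField F] [Field F'] [NumberField F']
    [Algebra F F'] [Algebra K F] [Algebra K F'] [IsScalarTower K F F'] [IsGalois F F'] {p : ℕ}
    [hp : Fact p.Prime] (hL : Module.finrank F F' = p) {m : Ideal (𝓞 F)} (hm0 : m ≠ 0)
    (hm1 : m ≠ 1) (hm3 : m ≤ Ideal.span {up HC.f F})
    {x : HeightOneSpectrum (𝓞 F) → ZMod p}
    (hx : RayData p F' m x) {q : ℕ} (hq0 : q ≠ 0) (hq3 : IsCoprime (HC.f : 𝓞 K) (q : 𝓞 K))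
    (hmq : IsCoprime m (Ideal.span {(q : 𝓞 F)})) {Ω : ℂ} (hV : ValueProp HC.f q Ω F)
    (hg : LGood F') : LGood F := by
  classical
  obtain ⟨ι, hι, J, G, hG, hJ, -, hfam⟩ := exists_family hq0 hV m hm0 hm1 hm3 hmq
  obtain ⟨L', hLd', hL1', hne⟩ := hg
  obtain ⟨L, hLd, hL1⟩ := exists_cont hq0 hq3 hV
  have hBfin : {v : HeightOneSpectrum (𝓞 F) | m ≤ v.asIdeal}.Finite := by
    refine (Ideal.finite_factors hm0).subset fun v hv => ?_
    exact Ideal.dvd_iff_le.mpr hv
  obtain ⟨B, hBdef⟩ : ∃ B, B = hBfin.toFinset := ⟨_, rfl⟩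
  have hB : ∀ v, v ∈ B ↔ m ≤ v.asIdeal := fun v => by
    rw [hBdef, Set.Finite.mem_toFinset]; rfl
  obtain ⟨m', hm'⟩ : ∃ m', m' = m.map (algebraMap (𝓞 F) (𝓞 F')) := ⟨_, rfl⟩
  have hm0' : m' ≠ 0 := by
    rw [hm', Ne, Ideal.zero_eq_bot, Ideal.map_eq_bot_iff_of_injective
      (FaithfulSMul.algebraMap_injective _ _)]
    exact hm0
  have hBfin' : {w : HeightOneSpectrum (𝓞 F') | m' ≤ w.asIdeal}.Finite := by
    refine (Ideal.finite_factors hm0').subset fun v hv => ?_
    exact Ideal.dvd_iff_le.mpr hv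
  obtain ⟨B', hBdef'⟩ : ∃ B', B' = hBfin'.toFinset := ⟨_, rfl⟩
  have hB' : ∀ v, v ∈ B' ↔ m' ≤ v.asIdeal := fun v => by
    rw [hBdef', Set.Finite.mem_toFinset]; rfl
  let G1 : ZMod p → ℂ → ℂ := fun j s => ∑ i, chr x m j (J i) * G i s
  have hG1d : ∀ j, Differentiable ℂ (G1 j) := fun j =>
    Differentiable.fun_sum fun i _ => (differentiable_const _).mul (hG i)
  have hG1L : ∀ j, ∀ s : ℂ, 2 < s.re → Lf (fun I => psbC F I * chr x m j I) s = G1 j s := by
    intro j s hs
    exact hfam (chr x m j) (fun I hI => chr_of_not hI) (norm_chr_le x m j)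
      (hx.chr_ray hm0 hm1 j) s hs
  have id1 : G1 0 = fun s => L s * ∏ v ∈ B, (1 - psbC F v.asIdeal *
      (Ideal.absNorm v.asIdeal : ℂ) ^ (-s)) := by
    refine entire_eq (hG1d 0) (hLd.mul (differentiable_euler B _)) fun s hs => ?_
    have e : (fun I => psbC F I * chr x m 0 I) = fun I => psbC F I * indC m I :=
      funext fun I => by rw [chr_zero]
    rw [← hG1L 0 s hs, e, Lf_indC m B hB s hs, hL1 s hs]
  have id2 : (fun s => L' s * ∏ w ∈ B', (1 - psbC F' w.asIdeal *
      (Ideal.absNorm w.asIdeal : ℂ) ^ (-s))) = fun s => ∏ j : ZMod p, G1 j s := by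
    refine entire_eq (hLd'.mul (differentiable_euler B' _))
      (Differentiable.fun_finsetProd fun j _ => hG1d j) fun s hs => ?_
    have e1 : L' s = Lf (psbC F') s := hL1' s hs
    rw [e1, ← Lf_indC m' B' hB' s hs, hm', ray_Lf hL hm1 hx s hs]
    exact Finset.prod_congr rfl fun j _ => hG1L j s hs
  have e2 := congrFun id2 1
  have h1 : ∏ j : ZMod p, G1 j 1 ≠ 0 := by
    rw [← e2]
    exact mul_ne_zero hne (Finset.prod_ne_zero_iff.mpr fun w _ => euler_ne w)
  have h2 : G1 0 1 ≠ 0 := (Finset.prod_ne_zero_iff.mp h1) 0 (Finset.mem_univ _)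
  rw [id1] at h2
  exact ⟨L, hLd, fun s hs => hL1 s hs, left_ne_zero_of_mul h2⟩

end Pool.Agent.Lib.MP_1a91b9_nuX.TG
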