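import Pool.Agent.Lib.MP_1a91b9_nuX.TG.Low
import Pool.Agent.Lib.MP_1a91b9_nuT.TG.Comp

/-!
# Descent of the nonvanishing from `N F₀` to `N`
-/

set_option autoImplicit false

namespace Pool.Agent.Lib.MP_1a91b9_nuX.TG

variable [Pool.Agent.Lib.MP_1a91b9_nuT.CD]

open NumberField IsDedekindDomain WeierstrassCurve Module Pool.Agent.Lib.MP_1a91b9_nuT
open Pool.Agent.Lib.MP_1a91b9_nuX.DB Pool.Agent.Lib.MP_1a91b9_nuX.DX
open Pool.Agent.Lib.MP_1a91b9_nuT.TG (exists_comp)

variable [HC]

section
variable {μ : 𝓞 K} {L L' : Type} [Field L] [NumberField L] [Algebra K L] [Field L']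
  [NumberField L'] [Algebra K L'] [Algebra L' L] [IsScalarTower K L' L] [IsGalois K L']
  [DecidableEq L'] [DecidableEq L]

/-- the torsion point over an extension -/
theorem AbT.up {N : Type} [Field N] [NumberField N] [Algebra K N] [Algebra N L]
    [IsScalarTower K N L] [IsGalois N L] {T : Pt L'} (hT : AbT μ K T)
    (hL : ∀ σ : Gal(L/N), (∀ x : L', σ (algebraMap L' L x) = algebraMap L' L x) → σ = 1) :
    AbT μ N (DX.up L T) := by
  refine ⟨hT.ne, (ord_up L).2 hT.ord, fun σ hσ => ?_⟩
  apply hL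
  intro x
  have h1 : ga (rs L' (toF K σ)) T = T := by
    rw [← up_inj L, ← ga_up]
    exact hσ
  have h2 := hT.gen _ h1
  have h3 := rs_apply (N := L') (toF K σ) x
  rw [h2, AlgEquiv.one_apply, toF_apply] at h3
  exact h3.symm

end

/-- If `F₀` is contained in the field `L'` generated over `K` by a torsion point, the nonvanishing
descends from `F = N F₀` to `N`. -/
theorem lgood_sub {μ : 𝓞 K} (N F F₀ L' : Type) [Field N] [NumberField N] [Algebra K N] [Field F]
    [NumberField F] [Algebra K F] [Field F₀] [NumberField F₀] [Algebra K F₀] [Field L']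
    [NumberField L'] [Algebra K L'] [Algebra N F] [Algebra F₀ F] [Algebra F₀ L']
    [IsScalarTower K N F] [IsScalarTower K F₀ F] [IsScalarTower K F₀ L'] [IsGalois K L']
    [DecidableEq L'] {T : Pt L'} (hT : AbT μ K T)
    (hgen : IntermediateField.adjoin N (Set.range (algebraMap F₀ F)) = ⊤)
    (h : AN.LGood F) : AN.LGood N := by
  classical
  obtain ⟨L, _, _, _, _, _, _, t1, t2, t3, t4, hG, hL⟩ := exists_comp N F F₀ L' hgen
  exact lgood_abT μ _ N F L (DX.up L T) (hT.up hL) rfl h

end Pool.Agent.Lib.MP_1a91b9_nuX.TG
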